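import Mathlib
import Pool.Agent.Lib.PrimrecProp.Basic

/-! Benois saturation: for a finite automaton over a group alphabet, it is decidable whether two
states are joined by a path whose label is trivial in the free group. -/

set_option autoImplicit false

namespace Pool.Agent.P.MP_ab6a8b_al

open FreeGroup Pool.Agent.Lib.PrimrecProp

variable {σ X : Type}

/-- Paths in an automaton with empty transitions `ep` and letter transitions `ed`. -/
inductive Path (ep : List (σ × σ)) (ed : List (σ × (X × Bool) × σ)) :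
    σ → σ → List (X × Bool) → Prop
  | nil (p : σ) : Path ep ed p p []
  | eps {p p' q : σ} {L : List (X × Bool)} : (p, p') ∈ ep → Path ep ed p' q L → Path ep ed p q L
  | ltr {p p' q : σ} {x : X × Bool} {L : List (X × Bool)} :
      (p, x, p') ∈ ed → Path ep ed p' q L → Path ep ed p q (x :: L)

theorem Path.append {ep : List (σ × σ)} {ed : List (σ × (X × Bool) × σ)} {p q r : σ}
    {L M : List (X × Bool)} (h : Path ep ed p q L) (h' : Path ep ed q r M) :
    Path ep ed p r (L ++ M) := by
  induction h with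
  | nil p => simpa using h'
  | eps he _ ih => exact Path.eps he (ih h')
  | ltr he _ ih => exact Path.ltr he (ih h')

/-- Joined by a path with trivial label. -/
def Triv (ep : List (σ × σ)) (ed : List (σ × (X × Bool) × σ)) (p q : σ) : Prop :=
  ∃ L, Path ep ed p q L ∧ FreeGroup.mk L = 1

/-- Saturated paths. -/
def SP (R : σ → σ → Prop) (ed : List (σ × (X × Bool) × σ)) : List (X × Bool) → σ → σ → Prop
  | [], p, q => R p q
  | x :: L, p, q => ∃ p' p'', R p p' ∧ (p', x, p'') ∈ ed ∧ SP R ed L p'' q

theorem SP.head {R : σ → σ → Prop} (htr : ∀ a b c, R a b → R b c → R a c)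
    {ed : List (σ × (X × Bool) × σ)} {L : List (X × Bool)} {p p' q : σ} (h : R p p')
    (h' : SP R ed L p' q) : SP R ed L p q := by
  cases L with
  | nil => exact htr _ _ _ h h'
  | cons x L =>
    obtain ⟨a, b, h1, h2, h3⟩ := h'
    exact ⟨a, b, htr _ _ _ h h1, h2, h3⟩

theorem triv_of_closed {ep : List (σ × σ)} {ed : List (σ × (X × Bool) × σ)}
    {R : σ → σ → Prop} (hrf : ∀ a, R a a) (htr : ∀ a b c, R a b → R b c → R a c)
    (hep : ∀ a b, (a, b) ∈ ep → R a b)
    (hc : ∀ a b c d (x : X) (s : Bool), (a, (x, s), b) ∈ ed → R b c → (c, (x, !s), d) ∈ ed → R a d)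
    {p q : σ} (h : Triv ep ed p q) : R p q := by
  obtain ⟨L, hL, h1⟩ := h
  have h2 : SP R ed L p q := by
    clear h1
    induction hL with
    | nil p => exact hrf p
    | eps he _ ih => exact SP.head htr (hep _ _ he) ih
    | ltr he _ ih => exact ⟨_, _, hrf _, he, ih⟩
  have step : ∀ (L₁ L₂ : List (X × Bool)) (x : X) (s : Bool) (p : σ),
      SP R ed (L₁ ++ (x, s) :: (x, !s) :: L₂) p q → SP R ed (L₁ ++ L₂) p q := by
    intro L₁ L₂ x s
    induction L₁ with
    | nil =>
      rintro p ⟨a, b, h1, h2, c, d, h3, h4, h5⟩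
      exact SP.head htr (htr _ _ _ h1 (hc _ _ _ _ _ _ h2 h3 h4)) h5
    | cons y L₁ ih =>
      rintro p ⟨a, b, h1, h2, h3⟩
      exact ⟨a, b, h1, h2, ih _ h3⟩
  have red : ∀ M, Red L M → SP R ed M p q := by
    intro M hM
    induction hM with
    | refl => exact h2
    | tail _ hs ih =>
      obtain @⟨L₁, L₂, x, s⟩ := hs
      exact step _ _ _ _ _ ih
  have h3 : FreeGroup.mk L = FreeGroup.mk [] := h1
  obtain ⟨c, hc1, hc2⟩ := Red.exact.1 h3
  rw [Red.nil_iff.1 hc2] at hc1
  exact red _ hc1

section Dec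

variable [DecidableEq σ] [DecidableEq X]

/-- States that occur in a transition. -/
def states (ep : List (σ × σ)) (ed : List (σ × (X × Bool) × σ)) : List σ :=
  ep.map (fun e => e.1) ++ ep.map (fun e => e.2) ++ ed.map (fun e => e.1) ++ ed.map (fun e => e.2.2)

/-- Reflexive closure of a finite relation. -/
def relb (E : List (σ × σ)) (p q : σ) : Bool := eqb p q || memb (p, q) E

/-- Closure under the saturation rules. -/
def closedb (ep : List (σ × σ)) (ed : List (σ × (X × Bool) × σ)) (E : List (σ × σ)) : Bool :=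
  ep.all (fun e => relb E e.1 e.2) &&
  E.all (fun a => E.all (fun b => !(eqb a.2 b.1) || relb E a.1 b.2)) &&
  ed.all (fun e => ed.all (fun e' =>
    !(eqb e'.2.1 (e.2.1.1, !e.2.1.2) && relb E e.2.2 e'.1) || relb E e.1 e'.2.2))

/-- Decision procedure for `Triv`. -/
def trivb (ep : List (σ × σ)) (ed : List (σ × (X × Bool) × σ)) (p q : σ) : Bool :=
  (subl (pairs (states ep ed) (states ep ed))).all (fun E => !(closedb ep ed E) || relb E p q)

theorem relb_iff (E : List (σ × σ)) (p q : σ) : relb E p q = true ↔ p = q ∨ (p, q) ∈ E := by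
  simp [relb]

theorem closedb_iff (ep : List (σ × σ)) (ed : List (σ × (X × Bool) × σ)) (E : List (σ × σ)) :
    closedb ep ed E = true ↔
      (∀ e ∈ ep, relb E e.1 e.2 = true) ∧
      (∀ a ∈ E, ∀ b ∈ E, a.2 = b.1 → relb E a.1 b.2 = true) ∧
      (∀ e ∈ ed, ∀ e' ∈ ed, e'.2.1 = (e.2.1.1, !e.2.1.2) → relb E e.2.2 e'.1 = true →
        relb E e.1 e'.2.2 = true) := by
  simp only [closedb, Bool.and_eq_true, List.all_eq_true, Bool.or_eq_true, Bool.not_eq_true',
    and_assoc, ← Bool.not_eq_true, eqb_iff, not_and, ← imp_iff_not_or]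
  refine and_congr Iff.rfl (and_congr Iff.rfl ?_)
  refine forall_congr' fun e => forall_congr' fun _ => forall_congr' fun e' =>
    forall_congr' fun _ => ?_
  tauto

theorem trivb_iff (ep : List (σ × σ)) (ed : List (σ × (X × Bool) × σ)) (p q : σ) :
    trivb ep ed p q = true ↔ Triv ep ed p q := by
  classical
  have key : trivb ep ed p q = true ↔ ∀ E ∈ subl (pairs (states ep ed) (states ep ed)),
      closedb ep ed E = true → relb E p q = true := by
    simp only [trivb, List.all_eq_true, Bool.or_eq_true, Bool.not_eq_true', ← Bool.not_eq_true,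
      ← imp_iff_not_or]
  rw [key]
  constructor
  · intro h
    set E := (pairs (states ep ed) (states ep ed)).filter
      (fun a => decide (Triv ep ed a.1 a.2)) with hE
    have hmem : ∀ a b, (a, b) ∈ E ↔ a ∈ states ep ed ∧ b ∈ states ep ed ∧ Triv ep ed a b := by
      intro a b
      simp [hE, and_assoc]
    have hrel : ∀ a b, relb E a b = true → Triv ep ed a b := by
      intro a b hab
      rcases (relb_iff _ _ _).1 hab with rfl | hab
      · exact ⟨[], Path.nil _, rfl⟩
      · exact ((hmem _ _).1 hab).2.2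
    refine hrel _ _ (h E (filter_mem_subl _ _) ((closedb_iff _ _ _).2 ⟨?_, ?_, ?_⟩))
    · intro e he
      refine (relb_iff _ _ _).2 (Or.inr ((hmem _ _).2 ⟨?_, ?_, [], Path.eps he (Path.nil _), rfl⟩))
      · simp only [states, List.mem_append, List.mem_map]
        exact Or.inl (Or.inl (Or.inl ⟨e, he, rfl⟩))
      · simp only [states, List.mem_append, List.mem_map]
        exact Or.inl (Or.inl (Or.inr ⟨e, he, rfl⟩))
    · rintro ⟨a, b⟩ ha ⟨c, d⟩ hb hbc
      obtain rfl : b = c := hbc
      obtain ⟨h1, -, L, h3, h4⟩ := (hmem _ _).1 ha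
      obtain ⟨-, h5, M, h6, h7⟩ := (hmem _ _).1 hb
      refine (relb_iff _ _ _).2 (Or.inr ((hmem _ _).2 ⟨h1, h5, L ++ M, h3.append h6, ?_⟩))
      rw [← FreeGroup.mul_mk, h4, h7, one_mul]
    · rintro ⟨a, ⟨x, s⟩, b⟩ he ⟨c, y, d⟩ he' hy hr
      obtain rfl : y = (x, !s) := hy
      obtain ⟨L, h3, h4⟩ := hrel _ _ hr
      refine (relb_iff _ _ _).2 (Or.inr ((hmem _ _).2 ⟨?_, ?_, (x, s) :: (L ++ [(x, !s)]),
        Path.ltr he (h3.append (Path.ltr he' (Path.nil _))), ?_⟩))
      · simp only [states, List.mem_append, List.mem_map]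
        exact Or.inl (Or.inr ⟨_, he, rfl⟩)
      · simp only [states, List.mem_append, List.mem_map]
        exact Or.inr ⟨_, he', rfl⟩
      · have e : (x, s) :: (L ++ [(x, !s)]) = [(x, s)] ++ L ++ invRev [(x, s)] := by
          simp [invRev]
        rw [e, ← FreeGroup.mul_mk, ← FreeGroup.mul_mk, h4, ← FreeGroup.inv_mk, mul_one,
          mul_inv_cancel]
  · intro h E _ hcl
    obtain ⟨h1, h2, h3⟩ := (closedb_iff _ _ _).1 hcl
    refine triv_of_closed (R := fun a b => relb E a b = true) ?_ ?_ ?_ ?_ h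
    · intro a
      exact (relb_iff _ _ _).2 (Or.inl rfl)
    · intro a b c hab hbc
      rcases (relb_iff _ _ _).1 hab with rfl | hab'
      · exact hbc
      rcases (relb_iff _ _ _).1 hbc with rfl | hbc'
      · exact hab
      exact h2 _ hab' _ hbc' rfl
    · intro a b hab
      exact h1 _ hab
    · intro a b c d x s he hr he'
      exact h3 _ he _ he' rfl hr

variable [Primcodable σ] [Primcodable X] {α : Type} [Primcodable α]

@[fun_prop] theorem p_relb {E : α → List (σ × σ)} {p q : α → σ} (hE : Primrec E)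
    (hp : Primrec p) (hq : Primrec q) : Primrec (fun a => relb (E a) (p a) (q a)) := by
  unfold relb; fun_prop

omit [DecidableEq σ] [DecidableEq X] in
@[fun_prop] theorem p_states {ep : α → List (σ × σ)} {ed : α → List (σ × (X × Bool) × σ)}
    (h1 : Primrec ep) (h2 : Primrec ed) : Primrec (fun a => states (ep a) (ed a)) := by
  unfold states; fun_prop

@[fun_prop] theorem p_closedb {ep : α → List (σ × σ)} {ed : α → List (σ × (X × Bool) × σ)}
    {E : α → List (σ × σ)} (h1 : Primrec ep) (h2 : Primrec ed) (h3 : Primrec E) :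
    Primrec (fun a => closedb (ep a) (ed a) (E a)) := by
  unfold closedb; fun_prop

@[fun_prop] theorem p_trivb {ep : α → List (σ × σ)} {ed : α → List (σ × (X × Bool) × σ)}
    {p q : α → σ} (h1 : Primrec ep) (h2 : Primrec ed) (h3 : Primrec p) (h4 : Primrec q) :
    Primrec (fun a => trivb (ep a) (ed a) (p a) (q a)) := by
  unfold trivb; fun_prop

end Dec

end Pool.Agent.P.MP_ab6a8b_al
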