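import Mathlib

/-! The Munn model of free inverse semigroups and a word form of Reilly's criterion. -/

set_option autoImplicit false

namespace Pool.Agent.P.MP_ab6a8b_al

open FreeGroup hiding map_mul map_one map_inv
open Pointwise

variable {X Z : Type}

/-- Vertices visited by a word. -/
def PS (w : List (X × Bool)) : Set (FreeGroup X) :=
  Set.range (fun i : ℕ => FreeGroup.mk (w.take i))

theorem mem_PS {w : List (X × Bool)} {g : FreeGroup X} :
    g ∈ PS w ↔ ∃ s r, w = s ++ r ∧ g = FreeGroup.mk s := by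
  constructor
  · rintro ⟨i, rfl⟩
    exact ⟨w.take i, w.drop i, (List.take_append_drop i w).symm, rfl⟩
  · rintro ⟨s, r, rfl, rfl⟩
    exact ⟨s.length, by simp⟩

theorem mem_PS' {w : List (X × Bool)} {g : FreeGroup X} :
    g ∈ PS w ↔ ∃ i ≤ w.length, g = FreeGroup.mk (w.take i) := by
  constructor
  · intro h
    obtain ⟨s, r, rfl, rfl⟩ := mem_PS.1 h
    exact ⟨s.length, by simp, by simp⟩
  · rintro ⟨i, -, rfl⟩
    exact ⟨i, rfl⟩

theorem one_mem_PS (w : List (X × Bool)) : (1 : FreeGroup X) ∈ PS w :=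
  mem_PS.2 ⟨[], w, rfl, rfl⟩

theorem mk_mem_PS (w : List (X × Bool)) : FreeGroup.mk w ∈ PS w :=
  mem_PS.2 ⟨w, [], by simp, rfl⟩

theorem PS_finite (w : List (X × Bool)) : (PS w).Finite := by
  have : PS w ⊆ (fun i => FreeGroup.mk (w.take i)) '' (Set.Iic w.length) := by
    intro g hg
    obtain ⟨i, hi, rfl⟩ := mem_PS'.1 hg
    exact ⟨i, hi, rfl⟩
  exact ((Set.finite_Iic _).image _).subset this

theorem mem_PS_append {u v : List (X × Bool)} {g : FreeGroup X} :
    g ∈ PS (u ++ v) ↔ g ∈ PS u ∨ ∃ t ∈ PS v, g = FreeGroup.mk u * t := by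
  constructor
  · intro h
    obtain ⟨s, r, h1, rfl⟩ := mem_PS.1 h
    rcases List.append_eq_append_iff.1 h1 with ⟨a, rfl, rfl⟩ | ⟨a, rfl, rfl⟩
    · exact Or.inr ⟨FreeGroup.mk a, mem_PS.2 ⟨a, r, rfl, rfl⟩, rfl⟩
    · exact Or.inl (mem_PS.2 ⟨s, a, rfl, rfl⟩)
  · rintro (h | ⟨t, ht, rfl⟩)
    · obtain ⟨s, r, rfl, rfl⟩ := mem_PS.1 h
      exact mem_PS.2 ⟨s, r ++ v, by simp, rfl⟩
    · obtain ⟨s, r, rfl, rfl⟩ := mem_PS.1 ht
      exact mem_PS.2 ⟨u ++ s, r, by simp, rfl⟩

theorem PS_append (u v : List (X × Bool)) : PS (u ++ v) = PS u ∪ FreeGroup.mk u • PS v := by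
  ext g
  rw [mem_PS_append, Set.mem_union, Set.mem_smul_set]
  simp only [smul_eq_mul, eq_comm]

theorem mem_PS_invRev {w : List (X × Bool)} {g : FreeGroup X} :
    g ∈ PS (invRev w) ↔ FreeGroup.mk w * g ∈ PS w := by
  constructor
  · intro h
    obtain ⟨s, r, h1, rfl⟩ := mem_PS.1 h
    have h2 : w = invRev r ++ invRev s := by rw [← invRev_append, ← h1, invRev_invRev]
    refine mem_PS.2 ⟨invRev r, invRev s, h2, ?_⟩
    rw [h2, ← FreeGroup.mul_mk, ← inv_mk, ← inv_mk]
    group
  · intro h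
    obtain ⟨s, r, h1, h2⟩ := mem_PS.1 h
    refine mem_PS.2 ⟨invRev r, invRev s, by rw [h1, invRev_append], ?_⟩
    rw [h1, ← FreeGroup.mul_mk, mul_assoc, mul_eq_left] at h2
    rw [← inv_mk]
    exact eq_inv_of_mul_eq_one_right h2

theorem PS_invRev (w : List (X × Bool)) : PS (invRev w) = (FreeGroup.mk w)⁻¹ • PS w := by
  ext g
  rw [mem_PS_invRev, Set.mem_inv_smul_set_iff, smul_eq_mul]

theorem mem_PS_nil {g : FreeGroup X} : g ∈ PS ([] : List (X × Bool)) ↔ g = 1 := by
  constructor
  · rintro ⟨i, rfl⟩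
    simp [FreeGroup.one_eq_mk]
  · rintro rfl
    exact one_mem_PS _

theorem mem_PS_singleton {c : X × Bool} {g : FreeGroup X} :
    g ∈ PS [c] ↔ g = 1 ∨ g = FreeGroup.mk [c] := by
  constructor
  · rintro ⟨i, rfl⟩
    cases i with
    | zero => exact Or.inl rfl
    | succ i => exact Or.inr (by simp)
  · rintro (rfl | rfl)
    · exact one_mem_PS _
    · exact mk_mem_PS _

/-- Formal inverse of a letter. -/
def linv (c : Z × Bool) : Z × Bool := (c.1, !c.2)

@[simp] theorem linv_linv (c : Z × Bool) : linv (linv c) = c := by simp [linv]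

theorem invRev_singleton (c : Z × Bool) : invRev [c] = [linv c] := by simp [invRev, linv]

theorem mk_linv (c : Z × Bool) : FreeGroup.mk [linv c] = (FreeGroup.mk [c])⁻¹ := by
  rw [inv_mk, invRev_singleton]

theorem linv_ne (c : Z × Bool) : linv c ≠ c := by
  obtain ⟨z, b⟩ := c
  cases b <;> simp [linv]

theorem rel_iff_ne_linv {a b : Z × Bool} : (a.1 = b.1 → a.2 = b.2) ↔ b ≠ linv a := by
  obtain ⟨z, s⟩ := a
  obtain ⟨y, t⟩ := b
  cases s <;> cases t <;> simp [linv, eq_comm]

/-- Word substituted for a letter. -/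
def wd (w : Z → List (X × Bool)) (c : Z × Bool) : List (X × Bool) :=
  cond c.2 (w c.1) (invRev (w c.1))

theorem wd_linv (w : Z → List (X × Bool)) (c : Z × Bool) : wd w (linv c) = invRev (wd w c) := by
  obtain ⟨z, b⟩ := c
  cases b <;> simp [wd, linv]

/-- Substitution of words for letters. -/
def flat (w : Z → List (X × Bool)) (v : List (Z × Bool)) : List (X × Bool) := v.flatMap (wd w)

@[simp] theorem flat_nil (w : Z → List (X × Bool)) : flat w [] = [] := rfl

@[simp] theorem flat_cons (w : Z → List (X × Bool)) (c : Z × Bool) (v : List (Z × Bool)) :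
    flat w (c :: v) = wd w c ++ flat w v := by simp [flat]

@[simp] theorem flat_append (w : Z → List (X × Bool)) (u v : List (Z × Bool)) :
    flat w (u ++ v) = flat w u ++ flat w v := by simp [flat]

theorem flat_invRev (w : Z → List (X × Bool)) (v : List (Z × Bool)) :
    flat w (invRev v) = invRev (flat w v) := by
  induction v with
  | nil => simp
  | cons c v ih => rw [invRev_cons, invRev_singleton]; simp [ih, wd_linv]

/-- The induced homomorphism of free groups. -/
def gb (w : Z → List (X × Bool)) : FreeGroup Z →* FreeGroup X :=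
  FreeGroup.lift (fun z => FreeGroup.mk (w z))

theorem gb_letter (w : Z → List (X × Bool)) (c : Z × Bool) :
    gb w (FreeGroup.mk [c]) = FreeGroup.mk (wd w c) := by
  obtain ⟨z, b⟩ := c
  cases b <;> simp [gb, wd]

theorem gb_mk (w : Z → List (X × Bool)) (v : List (Z × Bool)) :
    gb w (FreeGroup.mk v) = FreeGroup.mk (flat w v) := by
  induction v with
  | nil => simp [← FreeGroup.one_eq_mk]
  | cons c v ih =>
    have : FreeGroup.mk (c :: v) = FreeGroup.mk [c] * FreeGroup.mk v := rfl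
    rw [this, map_mul, ih, gb_letter, flat_cons, FreeGroup.mul_mk]

theorem mem_PS_flat {w : Z → List (X × Bool)} {v : List (Z × Bool)} {g : FreeGroup X} :
    g ∈ PS (flat w v) ↔ g = 1 ∨ ∃ s c r, v = s ++ c :: r ∧
      ∃ t ∈ PS (wd w c), g = gb w (FreeGroup.mk s) * t := by
  constructor
  · intro h
    induction v generalizing g with
    | nil => exact Or.inl (mem_PS_nil.1 h)
    | cons c v ih =>
      rw [flat_cons, mem_PS_append] at h
      rcases h with h | ⟨t, ht, rfl⟩
      · exact Or.inr ⟨[], c, v, rfl, g, h, by simp [← FreeGroup.one_eq_mk]⟩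
      · rcases ih ht with rfl | ⟨s, d, r, rfl, t', ht', rfl⟩
        · exact Or.inr ⟨[], c, v, rfl, _, mk_mem_PS _, by simp [← FreeGroup.one_eq_mk]⟩
        · refine Or.inr ⟨c :: s, d, r, rfl, t', ht', ?_⟩
          rw [gb_mk, gb_mk, flat_cons, ← FreeGroup.mul_mk, mul_assoc]
  · rintro (rfl | ⟨s, c, r, rfl, t, ht, rfl⟩)
    · exact one_mem_PS _
    · rw [flat_append, flat_cons, mem_PS_append]
      exact Or.inr ⟨t, mem_PS_append.2 (Or.inl ht), by rw [gb_mk]⟩

section Tree

variable [DecidableEq Z]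

theorem toWord_step (g : FreeGroup Z) (c : Z × Bool) :
    (g * FreeGroup.mk [c]).toWord = g.toWord ++ [c] ∨
      g.toWord = (g * FreeGroup.mk [c]).toWord ++ [linv c] := by
  have hg : IsReduced g.toWord := isReduced_toWord
  by_cases h : IsReduced (g.toWord ++ [c])
  · left
    conv_lhs => rw [← mk_toWord (x := g), FreeGroup.mul_mk, toWord_mk]
    exact h.reduce_eq
  · right
    rcases List.eq_nil_or_concat g.toWord with h0 | ⟨L, a, h0⟩
    · rw [h0] at h
      exact absurd IsReduced.singleton h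
    · rw [List.concat_eq_append] at h0
      rw [h0] at h hg
      have ha : c = linv a := by
        by_contra hne
        apply h
        have h2 : FreeGroup.IsReduced ([a] ++ [c]) := by
          simpa [FreeGroup.IsReduced] using rel_iff_ne_linv.2 hne
        exact IsReduced.append_overlap hg h2 (by simp)
      have hL : FreeGroup.IsReduced L := List.IsChain.left_of_append hg
      have e : g * FreeGroup.mk [c] = FreeGroup.mk L := by
        rw [← mk_toWord (x := g), h0, ← FreeGroup.mul_mk, ha, mk_linv]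
        group
      rw [e, toWord_mk, hL.reduce_eq, h0, ha, linv_linv]

/-- The reduced word of `g` begins with `y`. -/
def Side (y : Z × Bool) (g : FreeGroup Z) : Prop := g.toWord.head? = some y

theorem not_side_one (y : Z × Bool) : ¬ Side y (1 : FreeGroup Z) := by simp [Side]

theorem side_self (y : Z × Bool) : Side y (FreeGroup.mk [y]) := by simp [Side]

theorem side_step {y c : Z × Bool} {g : FreeGroup Z}
    (h : ¬ (Side y g ↔ Side y (g * FreeGroup.mk [c]))) :
    (g = 1 ∧ c = y) ∨ (g = FreeGroup.mk [y] ∧ c = linv y) := by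
  unfold Side at h
  rcases toWord_step g c with e | e
  · left
    rw [e] at h
    rcases hg : g.toWord with _ | ⟨a, L⟩
    · rw [hg] at h
      refine ⟨toWord_eq_nil_iff.1 hg, ?_⟩
      simpa using h
    · rw [hg] at h
      simp at h
  · right
    rw [e] at h
    rcases hg : (g * FreeGroup.mk [c]).toWord with _ | ⟨a, L⟩
    · rw [hg] at h e
      have h1 : linv c = y := by simpa using h
      refine ⟨?_, by rw [← h1, linv_linv]⟩
      rw [← mk_toWord (x := g), e, h1]
      rfl
    · rw [hg] at h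
      simp at h

/-- A walk that does not cross the edge from `1` to `y` stays on one side of it. -/
theorem side_const {y : Z × Bool} {g : FreeGroup Z} {v : List (Z × Bool)}
    (h : ∀ s c r, v = s ++ c :: r →
      ¬ ((g * FreeGroup.mk s = 1 ∧ c = y) ∨ (g * FreeGroup.mk s = FreeGroup.mk [y] ∧ c = linv y)))
    {t : FreeGroup Z} (ht : t ∈ PS v) : Side y (g * t) ↔ Side y g := by
  obtain ⟨s, r, rfl, rfl⟩ := mem_PS.1 ht
  clear ht
  induction s using List.reverseRecOn generalizing r with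
  | nil => simp [← FreeGroup.one_eq_mk]
  | append_singleton s c ih =>
    have h1 := ih (c :: r) (by simpa using h)
    rw [← h1, ← FreeGroup.mul_mk, ← mul_assoc]
    by_contra hne
    exact h s c r (by simp) (side_step (fun h2 => hne h2.symm))

end Tree

/-- A walk that visits both ends of an edge crosses it. -/
theorem cross_edge {v : List (Z × Bool)} {g : FreeGroup Z} {y : Z × Bool} (h1 : g ∈ PS v)
    (h2 : g * FreeGroup.mk [y] ∈ PS v) :
    ∃ s c r, v = s ++ c :: r ∧ ((FreeGroup.mk s = g ∧ c = y) ∨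
      (FreeGroup.mk s = g * FreeGroup.mk [y] ∧ c = linv y)) := by
  classical
  by_contra hne
  have key : ∀ s c r, v = s ++ c :: r → ¬ ((g⁻¹ * FreeGroup.mk s = 1 ∧ c = y) ∨
      (g⁻¹ * FreeGroup.mk s = FreeGroup.mk [y] ∧ c = linv y)) := by
    rintro s c r hv (⟨h3, h4⟩ | ⟨h3, h4⟩)
    · exact hne ⟨s, c, r, hv, Or.inl ⟨(inv_mul_eq_one.1 h3).symm, h4⟩⟩
    · exact hne ⟨s, c, r, hv, Or.inr ⟨inv_mul_eq_iff_eq_mul.1 h3, h4⟩⟩
  have a := side_const key h1
  have b := side_const key h2
  rw [inv_mul_cancel] at a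
  rw [inv_mul_cancel_left] at b
  exact not_side_one y (a.2 (b.1 (side_self y)))

theorem mul_mem_PS_wd_linv {w : Z → List (X × Bool)} {c : Z × Bool} {t : FreeGroup X}
    (ht : t ∈ PS (wd w c)) : (FreeGroup.mk (wd w c))⁻¹ * t ∈ PS (wd w (linv c)) := by
  rw [wd_linv, mem_PS_invRev, mul_inv_cancel_left]
  exact ht

/-- The universal property on the level of vertex sets. -/
theorem PS_flat_mono {w : Z → List (X × Bool)} {v v' : List (Z × Bool)} (h : PS v ⊆ PS v') :
    PS (flat w v) ⊆ PS (flat w v') := by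
  intro g hg
  rcases mem_PS_flat.1 hg with rfl | ⟨s, c, r, rfl, t, ht, rfl⟩
  · exact one_mem_PS _
  have h1 : FreeGroup.mk s ∈ PS v' := h (mem_PS.2 ⟨s, c :: r, rfl, rfl⟩)
  have h2 : FreeGroup.mk s * FreeGroup.mk [c] ∈ PS v' :=
    h (mem_PS.2 ⟨s ++ [c], r, by simp, rfl⟩)
  obtain ⟨s', d, r', rfl, ⟨h3, rfl⟩ | ⟨h3, rfl⟩⟩ := cross_edge h1 h2
  · exact mem_PS_flat.2 (Or.inr ⟨s', d, r', rfl, t, ht, by rw [h3]⟩)
  · refine mem_PS_flat.2 (Or.inr ⟨s', linv c, r', rfl, _, mul_mem_PS_wd_linv ht, ?_⟩)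
    rw [h3, map_mul, gb_letter]
    group

/-- The substituted words generate freely. -/
def FreeW (w : Z → List (X × Bool)) : Prop :=
  ∀ v v' : List (Z × Bool), v ≠ [] → v' ≠ [] → PS (flat w v) = PS (flat w v') →
    FreeGroup.mk (flat w v) = FreeGroup.mk (flat w v') →
      PS v = PS v' ∧ FreeGroup.mk v = FreeGroup.mk v'

/-- The tree of the letter inverse to `c` is covered by trees on the other side of its edge. -/
def Bad (w : Z → List (X × Bool)) (c : Z × Bool) : Prop :=
  ∀ t ∈ PS (wd w (linv c)), ∃ (v : List (Z × Bool)) (d : Z × Bool), IsReduced (c :: (v ++ [d])) ∧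
    ∃ t' ∈ PS (wd w d), t = FreeGroup.mk (flat w v) * t'

theorem not_bad_of_free {w : Z → List (X × Bool)} (h : FreeW w) (c : Z × Bool) : ¬ Bad w c := by
  classical
  intro hb
  have key : ∀ n : ℕ, ∃ u : List (Z × Bool), u ≠ [] ∧ FreeGroup.mk u = 1 ∧
      (∀ g ∈ PS u, ¬ Side (linv c) g) ∧
      ∀ k ≤ n, FreeGroup.mk ((wd w (linv c)).take k) ∈ PS (flat w u) := by
    have one : ∀ k : ℕ, ∃ u : List (Z × Bool), u ≠ [] ∧ FreeGroup.mk u = 1 ∧
        (∀ g ∈ PS u, ¬ Side (linv c) g) ∧
        FreeGroup.mk ((wd w (linv c)).take k) ∈ PS (flat w u) := by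
      intro k
      obtain ⟨v, d, hr, t', ht', e⟩ := hb _ ⟨k, rfl⟩
      have hs : ∀ g ∈ PS (v ++ [d]), ¬ Side (linv c) g := by
        intro g hg
        obtain ⟨s, r, h1, rfl⟩ := mem_PS.1 hg
        rw [h1] at hr
        have h2 : IsReduced (c :: s) := List.IsChain.left_of_append (l₁ := c :: s) hr
        have h3 : IsReduced s := List.IsChain.right_of_append (l₁ := [c]) h2
        rw [Side, toWord_mk, h3.reduce_eq]
        cases s with
        | nil => simp
        | cons a s =>
          have := rel_iff_ne_linv.1 (isReduced_cons_cons.1 h2).1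
          simpa using this
      refine ⟨(v ++ [d]) ++ invRev (v ++ [d]), by simp, ?_, ?_, ?_⟩
      · rw [← FreeGroup.mul_mk, ← inv_mk, mul_inv_cancel]
      · intro g hg
        rcases mem_PS_append.1 hg with hg | ⟨t, ht, rfl⟩
        · exact hs g hg
        · exact hs _ (mem_PS_invRev.1 ht)
      · beta_reduce at e
        rw [e]
        refine mem_PS_flat.2 (Or.inr ⟨v, d, invRev (v ++ [d]), by simp, t', ht', by rw [gb_mk]⟩)
    intro n
    induction n with
    | zero =>
      obtain ⟨u, h1, h2, h3, h4⟩ := one 0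
      exact ⟨u, h1, h2, h3, fun k hk => by rwa [Nat.le_zero.1 hk]⟩
    | succ n ih =>
      obtain ⟨u, h1, h2, h3, h4⟩ := ih
      obtain ⟨u', h1', h2', h3', h4'⟩ := one (n + 1)
      refine ⟨u ++ u', by simp [h1], by rw [← FreeGroup.mul_mk, h2, h2', one_mul], ?_, ?_⟩
      · intro g hg
        rcases mem_PS_append.1 hg with hg | ⟨t, ht, rfl⟩
        · exact h3 g hg
        · rw [h2, one_mul]
          exact h3' t ht
      · intro k hk
        rw [flat_append, mem_PS_append]
        rcases Nat.of_le_succ hk with hk | rfl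
        · exact Or.inl (h4 k hk)
        · exact Or.inr ⟨_, h4', by rw [← gb_mk, h2, map_one, one_mul]⟩
  obtain ⟨u, h1, h2, h3, h4⟩ := key (wd w (linv c)).length
  have h5 : FreeGroup.mk (flat w u) = 1 := by rw [← gb_mk, h2, map_one]
  have h6 := h u (u ++ [linv c, c]) h1 (by simp) ?_ ?_
  · refine h3 (FreeGroup.mk [linv c]) ?_ (side_self _)
    rw [h6.1]
    exact mem_PS.2 ⟨u ++ [linv c], [c], by simp, by rw [← FreeGroup.mul_mk, h2, one_mul]⟩
  · have h7 : PS (wd w (linv c)) ⊆ PS (flat w u) := by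
      intro t ht
      obtain ⟨i, hi, rfl⟩ := mem_PS'.1 ht
      exact h4 i hi
    ext g
    rw [flat_append, mem_PS_append, h5]
    refine ⟨Or.inl, ?_⟩
    rintro (hg | ⟨t, ht, rfl⟩)
    · exact hg
    rw [one_mul]
    simp only [flat_cons, flat_nil, List.append_nil] at ht
    rcases mem_PS_append.1 ht with ht | ⟨t', ht', rfl⟩
    · exact h7 ht
    · apply h7
      have := mul_mem_PS_wd_linv ht'
      rwa [inv_mk, ← wd_linv] at this
  · rw [← gb_mk, ← gb_mk]
    congr 1
    have : u ++ [linv c, c] = u ++ [linv c] ++ [c] := by simp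
    rw [this, ← FreeGroup.mul_mk, ← FreeGroup.mul_mk, mk_linv]
    group

theorem PS_subset_of_not_bad {w : Z → List (X × Bool)} (h : ∀ c, ¬ Bad w c)
    {v v' : List (Z × Bool)} (hv : v ≠ []) (hs : PS (flat w v') ⊆ PS (flat w v)) :
    PS v' ⊆ PS v := by
  classical
  intro g hg
  obtain ⟨s, r, rfl, rfl⟩ := mem_PS.1 hg
  clear hg
  induction s using List.reverseRecOn generalizing r with
  | nil => exact one_mem_PS _
  | append_singleton a y ih =>
    have h1 : FreeGroup.mk a ∈ PS v := ih (y :: r) (by simpa using hs)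
    by_contra h2
    apply h (linv y)
    intro t ht
    rw [linv_linv] at ht
    have h3 : gb w (FreeGroup.mk a) * t ∈ PS (flat w v) :=
      hs (mem_PS_flat.2 (Or.inr ⟨a, y, r, by simp, t, ht, rfl⟩))
    have h4 : ∃ s c r, v = s ++ c :: r ∧
        ∃ t' ∈ PS (wd w c), gb w (FreeGroup.mk a) * t = gb w (FreeGroup.mk s) * t' := by
      rcases mem_PS_flat.1 h3 with h4 | h4
      · obtain ⟨c, r, rfl⟩ := List.exists_cons_of_ne_nil hv
        exact ⟨[], c, r, rfl, 1, one_mem_PS _, by rw [h4]; simp [← FreeGroup.one_eq_mk]⟩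
      · exact h4
    obtain ⟨s, c, r', hv', t', ht', e⟩ := h4
    have key : ∀ s c r, v = s ++ c :: r → ¬ (((FreeGroup.mk a)⁻¹ * FreeGroup.mk s = 1 ∧ c = y) ∨
        ((FreeGroup.mk a)⁻¹ * FreeGroup.mk s = FreeGroup.mk [y] ∧ c = linv y)) := by
      rintro s c r hv (⟨h3, rfl⟩ | ⟨h3, h4⟩)
      · apply h2
        refine mem_PS.2 ⟨s ++ [c], r, by simp [hv], ?_⟩
        rw [← FreeGroup.mul_mk, ← FreeGroup.mul_mk, inv_mul_eq_one.1 h3]
      · apply h2
        refine mem_PS.2 ⟨s, c :: r, hv, ?_⟩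
        rw [← FreeGroup.mul_mk, inv_mul_eq_iff_eq_mul.1 h3]
    have ns : ∀ x ∈ PS v, ¬ Side y ((FreeGroup.mk a)⁻¹ * x) := by
      intro x hx hsx
      have a1 := side_const key h1
      rw [inv_mul_cancel] at a1
      exact not_side_one y (a1.2 ((side_const key hx).1 hsx))
    have red : ∀ (g : FreeGroup Z) (L : List (Z × Bool)) (d : Z × Bool), ¬ Side y g →
        g.toWord = L ++ [d] → IsReduced (linv y :: (L ++ [d])) ∧
          FreeGroup.mk L = g * (FreeGroup.mk [d])⁻¹ := by
      intro g L d hg e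
      have hr : IsReduced (L ++ [d]) := e ▸ isReduced_toWord
      constructor
      · rw [Side, e] at hg
        rcases hL : L ++ [d] with _ | ⟨b, M⟩
        · exact IsReduced.singleton
        · rw [hL] at hg hr
          refine isReduced_cons_cons.2 ⟨rel_iff_ne_linv.2 ?_, hr⟩
          rw [linv_linv]
          simpa using hg
      · rw [← mk_toWord (x := g), e, ← FreeGroup.mul_mk]
        group
    set g := (FreeGroup.mk a)⁻¹ * FreeGroup.mk s with hgdef
    have et : t = gb w g * t' := by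
      rw [hgdef, map_mul, map_inv, mul_assoc, ← e]
      group
    have n1 : ¬ Side y g := ns _ (mem_PS.2 ⟨s, c :: r', hv', rfl⟩)
    have n2 : ¬ Side y (g * FreeGroup.mk [c]) := by
      rw [hgdef, mul_assoc]
      exact ns _ (mem_PS.2 ⟨s ++ [c], r', by simp [hv'], rfl⟩)
    rcases toWord_step g c with e1 | e1
    · obtain ⟨r1, r2⟩ := red _ _ _ n2 e1
      exact ⟨g.toWord, c, r1, t', ht', by rw [← gb_mk, mk_toWord, et]⟩
    · obtain ⟨r1, r2⟩ := red _ _ _ n1 e1
      refine ⟨_, linv c, r1, _, mul_mem_PS_wd_linv ht', ?_⟩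
      rw [← gb_mk, mk_toWord, et, map_mul (gb w) g, gb_letter]
      group

theorem free_of_not_bad {w : Z → List (X × Bool)} (h : ∀ c, ¬ Bad w c) : FreeW w := by
  intro v v' hv hv' h1 h2
  refine ⟨Set.Subset.antisymm (PS_subset_of_not_bad h hv' h1.le)
    (PS_subset_of_not_bad h hv h1.ge), ?_⟩
  set u := v ++ invRev v' with hu
  have hu0 : u ≠ [] := by simp [hu, hv]
  have h3 : FreeGroup.mk (flat w u) = 1 := by
    rw [hu, flat_append, flat_invRev, ← FreeGroup.mul_mk, ← inv_mk, h2, mul_inv_cancel]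
  have h4 : ∀ n : ℕ, ∃ x : List (Z × Bool), FreeGroup.mk x = FreeGroup.mk u ^ n ∧
      PS (flat w x) ⊆ PS (flat w u) := by
    intro n
    induction n with
    | zero => exact ⟨[], by simp [← FreeGroup.one_eq_mk], fun g hg => by
        rw [mem_PS_nil.1 hg]; exact one_mem_PS _⟩
    | succ n ih =>
      obtain ⟨x, hx1, hx2⟩ := ih
      refine ⟨u ++ x, by rw [← FreeGroup.mul_mk, hx1, pow_succ'], fun g hg => ?_⟩
      rw [flat_append, mem_PS_append, h3] at hg
      rcases hg with hg | ⟨t, ht, rfl⟩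
      · exact hg
      · rw [one_mul]
        exact hx2 ht
  have h5 : ∀ n : ℕ, FreeGroup.mk u ^ n ∈ PS u := by
    intro n
    obtain ⟨x, hx1, hx2⟩ := h4 n
    exact hx1 ▸ PS_subset_of_not_bad h hu0 hx2 (mk_mem_PS x)
  have h6 : IsOfFinOrder (FreeGroup.mk u) := by
    rw [← finite_powers]
    refine (PS_finite u).subset ?_
    rintro _ ⟨n, rfl⟩
    exact h5 n
  have h7 : FreeGroup.mk u = 1 := h6.eq_one'
  rw [hu, ← FreeGroup.mul_mk, ← inv_mk] at h7
  exact mul_inv_eq_one.1 h7

theorem freeW_iff {w : Z → List (X × Bool)} : FreeW w ↔ ∀ c, ¬ Bad w c :=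
  ⟨not_bad_of_free, free_of_not_bad⟩

end Pool.Agent.P.MP_ab6a8b_al
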