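import Mathlib
import Pool.Agent.Lib.PrimrecProp.Basic
import Pool.Agent.P.MP_ab6a8b_al.Munn

/-! Reduction of freeness of a finitely generated inverse subsemigroup to a finite choice of
basis among the generators and their inverses. -/

set_option autoImplicit false

namespace Pool.Agent.P.MP_ab6a8b_al

open FreeGroup hiding map_mul map_one map_inv
open Pointwise Pool.Agent.Lib.PrimrecProp

variable {X Z : Type}

/-- The Munn pair of a word. -/
def mu (w : List (X × Bool)) : Set (FreeGroup X) × FreeGroup X := (PS w, FreeGroup.mk w)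

/-- Product of Munn pairs. -/
def mmul (x y : Set (FreeGroup X) × FreeGroup X) : Set (FreeGroup X) × FreeGroup X :=
  (x.1 ∪ x.2 • y.1, x.2 * y.2)

/-- Inverse of a Munn pair. -/
def minv (x : Set (FreeGroup X) × FreeGroup X) : Set (FreeGroup X) × FreeGroup X :=
  (x.2⁻¹ • x.1, x.2⁻¹)

/-- The free inverse semigroup. -/
def FIs (Z : Type) : Set (Set (FreeGroup Z) × FreeGroup Z) :=
  {p | ∃ w : List (Z × Bool), w ≠ [] ∧ p = mu w}

/-- The inverse subsemigroup generated by a list of words. -/
def GenS (gens : List (List (X × Bool))) : Set (Set (FreeGroup X) × FreeGroup X) :=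
  {q | ∀ T : Set (Set (FreeGroup X) × FreeGroup X), (∀ w ∈ gens, mu w ∈ T) →
    (∀ x ∈ T, ∀ y ∈ T, mmul x y ∈ T) → (∀ x ∈ T, minv x ∈ T) → q ∈ T}

/-- Freeness of the generated inverse subsemigroup. -/
def IsFreeGen (gens : List (List (X × Bool))) : Prop :=
  ∃ (Z : Type) (φ : Set (FreeGroup Z) × FreeGroup Z → Set (FreeGroup X) × FreeGroup X),
    Set.InjOn φ (FIs Z) ∧ φ '' FIs Z = GenS gens ∧
      ∀ x ∈ FIs Z, ∀ y ∈ FIs Z, φ (mmul x y) = mmul (φ x) (φ y)

theorem mu_append (u v : List (X × Bool)) : mu (u ++ v) = mmul (mu u) (mu v) := by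
  simp only [mu, mmul, PS_append, FreeGroup.mul_mk]

theorem mu_invRev (u : List (X × Bool)) : mu (invRev u) = minv (mu u) := by
  simp only [mu, minv, PS_invRev, inv_mk]

theorem invRev_ne_nil {u : List (X × Bool)} (h : u ≠ []) : invRev u ≠ [] := by
  intro h'
  apply h
  rw [← invRev_invRev (L₁ := u), h', invRev_empty]

theorem mu_flat_congr {w : Z → List (X × Bool)} {v v' : List (Z × Bool)} (h : mu v = mu v') :
    mu (flat w v) = mu (flat w v') := by
  have h1 : PS v = PS v' := congrArg Prod.fst h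
  have h2 : FreeGroup.mk v = FreeGroup.mk v' := congrArg Prod.snd h
  refine Prod.ext (Set.Subset.antisymm (PS_flat_mono h1.le) (PS_flat_mono h1.ge)) ?_
  change FreeGroup.mk (flat w v) = FreeGroup.mk (flat w v')
  rw [← gb_mk, ← gb_mk, h2]

theorem minv_unique {a b : Set (FreeGroup X) × FreeGroup X} (h1 : mmul (mmul a b) a = a)
    (h2 : mmul (mmul b a) b = b) : b = minv a := by
  obtain ⟨A, g⟩ := a
  obtain ⟨B, h⟩ := b
  simp only [mmul, Prod.mk.injEq] at h1 h2
  have hg : h = g⁻¹ := by
    have := h1.2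
    rw [mul_eq_right] at this
    exact eq_inv_of_mul_eq_one_right this
  subst hg
  refine Prod.ext (Set.Subset.antisymm ?_ ?_) rfl
  · intro x hx
    have : g • x ∈ A := by
      rw [← h1.1]
      exact Or.inl (Or.inr ⟨x, hx, rfl⟩)
    exact Set.mem_inv_smul_set_iff.2 this
  · intro x hx
    change x ∈ B
    rw [← h2.1]
    exact Or.inl (Or.inr hx)

theorem mmul_minv_cancel (u : List (X × Bool)) :
    mmul (mmul (mu u) (mu (invRev u))) (mu u) = mu u := by
  rw [mu_invRev]
  generalize mu u = x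
  simp [mmul, minv]

theorem mk_singleton_ne_one (c : Z × Bool) : FreeGroup.mk [c] ≠ 1 := by
  classical
  intro h
  have := side_self c
  rw [h] at this
  exact not_side_one c this

theorem mu_irred {u v : List (Z × Bool)} {c : Z × Bool} (h : mu (u ++ v) = mu [c]) :
    mu u = mu [c] ∨ mu v = mu [c] := by
  have h1 : PS (u ++ v) = PS [c] := congrArg Prod.fst h
  have h2 : FreeGroup.mk (u ++ v) = FreeGroup.mk [c] := congrArg Prod.snd h
  have h3 : PS u ⊆ PS [c] := fun g hg => h1 ▸ mem_PS_append.2 (Or.inl hg)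
  rcases mem_PS_singleton.1 (h3 (mk_mem_PS u)) with h4 | h4
  · right
    have h5 : FreeGroup.mk v = FreeGroup.mk [c] := by rw [← h2, ← FreeGroup.mul_mk, h4, one_mul]
    refine Prod.ext (Set.Subset.antisymm ?_ ?_) h5
    · intro g hg
      change g ∈ PS [c]
      rw [← h1]
      exact mem_PS_append.2 (Or.inr ⟨g, hg, by rw [h4, one_mul]⟩)
    · intro g hg
      rcases mem_PS_singleton.1 hg with rfl | rfl
      · exact one_mem_PS _
      · exact h5 ▸ mk_mem_PS v
  · left
    refine Prod.ext (Set.Subset.antisymm h3 ?_) h4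
    intro g hg
    rcases mem_PS_singleton.1 hg with rfl | rfl
    · exact one_mem_PS _
    · exact h4 ▸ mk_mem_PS u

theorem flat_single (v : List (Z × Bool)) : flat (fun z : Z => [(z, true)]) v = v := by
  induction v with
  | nil => rfl
  | cons c v ih =>
    obtain ⟨z, b⟩ := c
    cases b <;> simp [ih, wd, invRev]

theorem flat_flat {Y : Type} (w : Y → List (X × Bool)) (w' : Z → List (Y × Bool))
    (v : List (Z × Bool)) : flat w (flat w' v) = flat (fun z => flat w (w' z)) v := by
  induction v with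
  | nil => rfl
  | cons c v ih =>
    obtain ⟨z, b⟩ := c
    cases b <;> simp [ih, wd, flat_invRev]

theorem flat_ne_nil {w : Z → List (X × Bool)} (hw : ∀ z, w z ≠ []) {v : List (Z × Bool)}
    (hv : v ≠ []) : flat w v ≠ [] := by
  obtain ⟨⟨z, b⟩, r, rfl⟩ := List.exists_cons_of_ne_nil hv
  cases b
  · simp [wd, invRev_ne_nil (hw z)]
  · simp [wd, hw z]

/-- Membership in the inverse subsemigroup generated by the substituted words. -/
def MemW (w : Z → List (X × Bool)) (a : List (X × Bool)) : Prop :=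
  ∃ v : List (Z × Bool), v ≠ [] ∧ mu (flat w v) = mu a

theorem isFreeGen_of_basis {gens B : List (List (X × Bool))}
    (hB : ∀ b ∈ B, b ∈ gens ++ gens.map invRev)
    (hf : FreeW (Subtype.val : {b // b ∈ B} → List (X × Bool)))
    (hm : ∀ a ∈ gens, MemW (Subtype.val : {b // b ∈ B} → List (X × Bool)) a) :
    IsFreeGen gens := by
  classical
  set w : {b // b ∈ B} → List (X × Bool) := Subtype.val with hw
  let φ : Set (FreeGroup {b // b ∈ B}) × FreeGroup {b // b ∈ B} →
      Set (FreeGroup X) × FreeGroup X := fun p =>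
    if h : ∃ v, p = mu v then mu (flat w h.choose) else (∅, 1)
  have hφ : ∀ v, φ (mu v) = mu (flat w v) := by
    intro v
    have h : ∃ v', mu v = mu v' := ⟨v, rfl⟩
    simp only [φ, dif_pos h]
    exact mu_flat_congr h.choose_spec.symm
  refine ⟨{b // b ∈ B}, φ, ?_, ?_, ?_⟩
  · rintro _ ⟨v, hv, rfl⟩ _ ⟨v', hv', rfl⟩ h
    rw [hφ, hφ] at h
    obtain ⟨h1, h2⟩ := hf v v' hv hv' (congrArg Prod.fst h) (congrArg Prod.snd h)
    exact Prod.ext h1 h2
  · apply Set.Subset.antisymm
    · rintro _ ⟨_, ⟨v, hv, rfl⟩, rfl⟩ T h1 h2 h3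
      rw [hφ]
      have hb : ∀ z, mu (w z) ∈ T := by
        rintro ⟨b, hb⟩
        rcases List.mem_append.1 (hB b hb) with h | h
        · exact h1 b h
        · obtain ⟨a, ha, rfl⟩ := List.mem_map.1 h
          change mu (invRev a) ∈ T
          rw [mu_invRev]
          exact h3 _ (h1 a ha)
      have hc : ∀ c, mu (wd w c) ∈ T := by
        rintro ⟨z, b⟩
        cases b
        · change mu (invRev (w z)) ∈ T
          rw [mu_invRev]
          exact h3 _ (hb z)
        · exact hb z
      induction v with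
      | nil => exact absurd rfl hv
      | cons c v ih =>
        by_cases hv' : v = []
        · subst hv'
          simpa using hc c
        · rw [flat_cons, mu_append]
          exact h2 _ (hc c) _ (ih hv')
    · intro q hq
      refine hq _ ?_ ?_ ?_
      · intro a ha
        obtain ⟨v, hv, e⟩ := hm a ha
        exact ⟨mu v, ⟨v, hv, rfl⟩, by rw [hφ, e]⟩
      · rintro _ ⟨_, ⟨v, hv, rfl⟩, rfl⟩ _ ⟨_, ⟨v', hv', rfl⟩, rfl⟩
        exact ⟨mu (v ++ v'), ⟨_, by simp [hv], rfl⟩, by
          rw [hφ, hφ, hφ, flat_append, mu_append]⟩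
      · rintro _ ⟨_, ⟨v, hv, rfl⟩, rfl⟩
        exact ⟨mu (invRev v), ⟨_, invRev_ne_nil hv, rfl⟩, by
          rw [hφ, hφ, flat_invRev, mu_invRev]⟩
  · rintro _ ⟨v, hv, rfl⟩ _ ⟨v', hv', rfl⟩
    rw [← mu_append, hφ, hφ, hφ, flat_append, mu_append]

theorem basis_of_isFreeGen {gens : List (List (X × Bool))} (h : IsFreeGen gens) :
    ∃ B ∈ subl (gens ++ gens.map invRev),
      FreeW (Subtype.val : {b // b ∈ B} → List (X × Bool)) ∧
      ∀ a ∈ gens, MemW (Subtype.val : {b // b ∈ B} → List (X × Bool)) a := by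
  classical
  obtain ⟨Z, φ, hinj, him, hhom⟩ := h
  have memFI : ∀ {v : List (Z × Bool)}, v ≠ [] → mu v ∈ FIs Z := fun hv => ⟨_, hv, rfl⟩
  have happ : ∀ {u v : List (Z × Bool)}, u ≠ [] → v ≠ [] →
      φ (mu (u ++ v)) = mmul (φ (mu u)) (φ (mu v)) := fun hu hv => by
    rw [mu_append]
    exact hhom _ (memFI hu) _ (memFI hv)
  have hinv : ∀ {u : List (Z × Bool)}, u ≠ [] → φ (mu (invRev u)) = minv (φ (mu u)) := by
    intro u hu
    have hu' := invRev_ne_nil hu
    apply minv_unique
    · rw [← happ hu hu', ← happ (by simp [hu]) hu, mu_append, mu_append, mmul_minv_cancel]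
    · rw [← happ hu' hu, ← happ (by simp [hu]) hu', mu_append, mu_append]
      have := mmul_minv_cancel (invRev u)
      rw [invRev_invRev] at this
      rw [this]
  have hgen : ∀ a ∈ gens, ∃ v : List (Z × Bool), v ≠ [] ∧ φ (mu v) = mu a := by
    intro a ha
    have : mu a ∈ GenS gens := fun T h1 _ _ => h1 a ha
    rw [← him] at this
    obtain ⟨_, ⟨v, hv, rfl⟩, e⟩ := this
    exact ⟨v, hv, e⟩
  have hsel : ∀ z : Z, ∃ b ∈ gens ++ gens.map invRev, mu b = φ (mu [(z, true)]) := by
    intro z
    by_contra hne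
    have hz : φ (mu [(z, true)]) ∈ GenS gens := him ▸ ⟨_, memFI (by simp), rfl⟩
    have hi : ∀ u : List (Z × Bool), ∀ c : Z × Bool, mu (invRev u) = mu [c] →
        mu u = mu [linv c] := by
      intro u c h
      rw [← invRev_singleton, mu_invRev, ← h, ← mu_invRev, invRev_invRev]
    have := hz {q | ∃ v : List (Z × Bool), v ≠ [] ∧ mu v ≠ mu [(z, true)] ∧
      mu v ≠ mu [(z, false)] ∧ q = φ (mu v)} ?_ ?_ ?_
    · obtain ⟨v, hv, h1, -, h3⟩ := this
      exact h1 (hinj (memFI (by simp)) (memFI hv) h3).symm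
    · intro a ha
      obtain ⟨v, hv, e⟩ := hgen a ha
      refine ⟨v, hv, fun h1 => hne ⟨a, List.mem_append_left _ ha, by rw [← e, h1]⟩,
        fun h1 => hne ⟨invRev a, List.mem_append_right _ (List.mem_map.2 ⟨a, ha, rfl⟩), ?_⟩,
        e.symm⟩
      rw [mu_invRev, ← e, h1, ← hinv (by simp), invRev_singleton]
      rfl
    · rintro _ ⟨u, hu, u1, u2, rfl⟩ _ ⟨v, hv, v1, v2, rfl⟩
      exact ⟨u ++ v, by simp [hu], fun h => (mu_irred h).elim u1 v1,
        fun h => (mu_irred h).elim u2 v2, (happ hu hv).symm⟩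
    · rintro _ ⟨u, hu, u1, u2, rfl⟩
      exact ⟨invRev u, invRev_ne_nil hu, fun h => u2 (hi _ _ h), fun h => u1 (hi _ _ h),
        (hinv hu).symm⟩
  choose sel hsel1 hsel2 using hsel
  have hflat : ∀ v : List (Z × Bool), v ≠ [] → φ (mu v) = mu (flat sel v) := by
    have hc : ∀ c, φ (mu [c]) = mu (wd sel c) := by
      rintro ⟨z, b⟩
      cases b
      · change _ = mu (invRev (sel z))
        rw [mu_invRev, hsel2, ← hinv (by simp), invRev_singleton]
        rfl
      · exact (hsel2 z).symm
    intro v hv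
    induction v with
    | nil => exact absurd rfl hv
    | cons c v ih =>
      by_cases hv' : v = []
      · subst hv'
        simpa using hc c
      · have : c :: v = [c] ++ v := rfl
        rw [flat_cons, mu_append, this, happ (by simp) hv', hc, ih hv']
  set B := (gens ++ gens.map invRev).filter (fun b => decide (∃ z, sel z = b)) with hB
  have hmemB : ∀ z, sel z ∈ B := fun z => List.mem_filter.2 ⟨hsel1 z, by simp⟩
  have hex : ∀ b : {b // b ∈ B}, ∃ z, sel z = b.1 := fun b => by
    simpa using (List.mem_filter.1 b.2).2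
  choose s hs using hex
  let t : Z → {b // b ∈ B} := fun z => ⟨sel z, hmemB z⟩
  have hts : ∀ b, t (s b) = b := fun b => Subtype.ext (hs b)
  refine ⟨B, filter_mem_subl _ _, ?_, ?_⟩
  · intro v v' hv hv' h1 h2
    have e : ∀ v : List ({b // b ∈ B} × Bool),
        flat sel (flat (fun b => [(s b, true)]) v) = flat Subtype.val v := by
      intro v
      rw [flat_flat]
      congr 1
      funext b
      simp [wd, hs]
    have e' : ∀ v : List ({b // b ∈ B} × Bool),
        flat (fun z => [(t z, true)]) (flat (fun b => [(s b, true)]) v) = v := by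
      intro v
      rw [flat_flat]
      conv_rhs => rw [← flat_single v]
      congr 1
      funext b
      simp [wd, hts]
    have n1 := flat_ne_nil (w := fun b => [(s b, true)]) (by simp) hv
    have n2 := flat_ne_nil (w := fun b => [(s b, true)]) (by simp) hv'
    have h3 := hinj (memFI n1) (memFI n2) (by
      rw [hflat _ n1, hflat _ n2, e, e]
      exact Prod.ext h1 h2)
    have h4 := mu_flat_congr (w := fun z => [(t z, true)]) h3
    rw [e', e'] at h4
    exact ⟨congrArg Prod.fst h4, congrArg Prod.snd h4⟩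
  · intro a ha
    obtain ⟨v, hv, e⟩ := hgen a ha
    refine ⟨flat (fun z => [(t z, true)]) v, flat_ne_nil (by simp) hv, ?_⟩
    rw [← e, hflat v hv, flat_flat]
    congr 2
    funext z
    simp [wd, t]

theorem isFreeGen_iff {gens : List (List (X × Bool))} : IsFreeGen gens ↔
    ∃ B ∈ subl (gens ++ gens.map invRev),
      (∀ c, ¬ Bad (Subtype.val : {b // b ∈ B} → List (X × Bool)) c) ∧
      ∀ a ∈ gens, MemW (Subtype.val : {b // b ∈ B} → List (X × Bool)) a := by
  constructor
  · intro h
    obtain ⟨B, h1, h2, h3⟩ := basis_of_isFreeGen h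
    exact ⟨B, h1, freeW_iff.1 h2, h3⟩
  · rintro ⟨B, h1, h2, h3⟩
    exact isFreeGen_of_basis (subset_of_mem_subl h1) (freeW_iff.2 h2) h3

end Pool.Agent.P.MP_ab6a8b_al
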