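import Mathlib
import Pool.Agent.Lib.PrimrecProp.Basic
import Pool.Agent.P.MP_ab6a8b_al.Benois
import Pool.Agent.P.MP_ab6a8b_al.Char

/-! The decision procedure. -/

set_option autoImplicit false

namespace Pool.Agent.P.MP_ab6a8b_al

open FreeGroup hiding map_mul map_one map_inv
open Pointwise Pool.Agent.Lib.PrimrecProp

/-- Words over the countable alphabet. -/
abbrev W := List (ℕ × Bool)

/-- The word named by a signed word. -/
def wr (c : W × Bool) : W := cond c.2 c.1 (invRev c.1)

/-- Signed words from a list. -/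
def Cs (B : List W) : List (W × Bool) := pairs B [true, false]

theorem mem_Cs {B : List W} {c : W × Bool} : c ∈ Cs B ↔ c.1 ∈ B := by
  obtain ⟨a, b⟩ := c
  cases b <;> simp [Cs]

/-- Forget the membership proof. -/
def up {B : List W} (c : {b // b ∈ B} × Bool) : W × Bool := (c.1.1, c.2)

theorem wr_up {B : List W} (c : {b // b ∈ B} × Bool) : wr (up c) = wd Subtype.val c := rfl

theorem up_mem {B : List W} (c : {b // b ∈ B} × Bool) : (up c).1 ∈ B := c.1.2

theorem exists_up {B : List W} {c : W × Bool} (h : c.1 ∈ B) :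
    ∃ c' : {b // b ∈ B} × Bool, up c' = c := ⟨(⟨c.1, h⟩, c.2), rfl⟩

theorem up_ne_iff {B : List W} {c d : {b // b ∈ B} × Bool} :
    up d ≠ linv (up c) ↔ d ≠ linv c := by
  obtain ⟨⟨a, ha⟩, s⟩ := c
  obtain ⟨⟨b, hb⟩, t⟩ := d
  simp [up, linv]

/-- States of the automaton. -/
abbrev St := Bool × (W × Bool) × ℕ

/-- Letter transitions. -/
def edL (B : List W) : List (St × (ℕ × Bool) × St) :=
  [true, false].flatMap fun f => (Cs B).flatMap fun c => (List.range (wr c).length).map fun i =>
    ((f, c, i), (wr c).getD i (0, true), (f, c, i + 1))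

/-- Empty transitions. -/
def epL (B : List W) : List (St × St) :=
  [true, false].flatMap fun f => (Cs B).flatMap fun c =>
    ((Cs B).filter (fun d => !(eqb d (c.1, !c.2)))).map fun d =>
      ((f, c, (wr c).length), (true, d, 0))

theorem mem_bools (f : Bool) : f ∈ [true, false] := by cases f <;> simp

theorem mem_edL {B : List W} {e : St × (ℕ × Bool) × St} : e ∈ edL B ↔
    ∃ f c i, c.1 ∈ B ∧ i < (wr c).length ∧
      e = ((f, c, i), (wr c).getD i (0, true), (f, c, i + 1)) := by
  simp only [edL, List.mem_flatMap, List.mem_map, List.mem_range, mem_Cs, mem_bools, true_and]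
  constructor
  · rintro ⟨f, c, h1, i, h2, rfl⟩
    exact ⟨f, c, i, h1, h2, rfl⟩
  · rintro ⟨f, c, i, h1, h2, rfl⟩
    exact ⟨f, c, h1, i, h2, rfl⟩

theorem mem_epL {B : List W} {e : St × St} : e ∈ epL B ↔
    ∃ f c d, c.1 ∈ B ∧ d.1 ∈ B ∧ d ≠ linv c ∧ e = ((f, c, (wr c).length), (true, d, 0)) := by
  simp only [epL, List.mem_flatMap, List.mem_map, List.mem_filter, mem_Cs, mem_bools, true_and,
    Bool.not_eq_true', ← Bool.not_eq_true, eqb_iff]
  constructor
  · rintro ⟨f, c, h1, d, ⟨h2, h3⟩, rfl⟩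
    exact ⟨f, c, d, h1, h2, h3, rfl⟩
  · rintro ⟨f, c, d, h1, h2, h3, rfl⟩
    exact ⟨f, c, h1, d, ⟨h2, h3⟩, rfl⟩

theorem mk_take_succ {u : W} {i : ℕ} (h : i < u.length) :
    FreeGroup.mk (u.take (i + 1)) = FreeGroup.mk (u.take i) * FreeGroup.mk [u.getD i (0, true)] := by
  rw [FreeGroup.mul_mk, List.take_add_one]
  simp [List.getElem?_eq_getElem h]

theorem mk_cons' (x : ℕ × Bool) (L : W) :
    FreeGroup.mk (x :: L) = FreeGroup.mk [x] * FreeGroup.mk L := rfl

theorem path_sound {B : List W} {s t : St} {L : W} (h : Path (epL B) (edL B) s t L) :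
    ∀ (f : Bool) (c : {b // b ∈ B} × Bool) (j : ℕ), s = (f, up c, j) →
      j ≤ (wd Subtype.val c).length →
      ∃ (d : {b // b ∈ B} × Bool) (i : ℕ), t.2 = (up d, i) ∧
        ((t.1 = f ∧ d = c ∧ FreeGroup.mk ((wd Subtype.val c).take j) * FreeGroup.mk L =
            FreeGroup.mk ((wd Subtype.val c).take i)) ∨
          ∃ v, FreeGroup.IsReduced (c :: (v ++ [d])) ∧
            FreeGroup.mk ((wd Subtype.val c).take j) * FreeGroup.mk L =
              FreeGroup.mk (wd Subtype.val c) * (FreeGroup.mk (flat Subtype.val v) *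
                FreeGroup.mk ((wd Subtype.val d).take i))) := by
  induction h with
  | nil p =>
    rintro f c j rfl _
    exact ⟨c, j, rfl, Or.inl ⟨rfl, rfl, by simp⟩⟩
  | @eps p p' q L he _ ih =>
    rintro f c j rfl hj
    obtain ⟨f', c', d', h1, h2, h3, h4⟩ := mem_epL.1 he
    obtain ⟨d'', rfl⟩ := exists_up h2
    simp only [Prod.mk.injEq] at h4
    obtain ⟨⟨rfl, rfl, rfl⟩, rfl⟩ := h4
    obtain ⟨d, i, h5, h6⟩ := ih true d'' 0 rfl (Nat.zero_le _)
    refine ⟨d, i, h5, Or.inr ?_⟩
    have hr := rel_iff_ne_linv.2 (up_ne_iff.1 h3)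
    rw [wr_up, List.take_length]
    simp only [List.take_zero, ← FreeGroup.one_eq_mk, one_mul] at h6
    rcases h6 with ⟨-, rfl, h7⟩ | ⟨v, h7, h8⟩
    · exact ⟨[], isReduced_cons_cons.2 ⟨hr, IsReduced.singleton⟩, by
        rw [h7]; simp [← FreeGroup.one_eq_mk]⟩
    · refine ⟨d'' :: v, isReduced_cons_cons.2 ⟨hr, h7⟩, ?_⟩
      rw [h8, flat_cons, ← FreeGroup.mul_mk, mul_assoc]
  | @ltr p p' q x L he _ ih =>
    rintro f c j rfl hj
    obtain ⟨f', c', i', h1, h2, h4⟩ := mem_edL.1 he
    simp only [Prod.mk.injEq] at h4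
    obtain ⟨⟨rfl, rfl, rfl⟩, rfl, rfl⟩ := h4
    obtain ⟨d, i, h5, h6⟩ := ih f c (j + 1) rfl h2
    refine ⟨d, i, h5, ?_⟩
    rw [wr_up] at h2
    rw [mk_take_succ h2, mul_assoc] at h6
    rw [mk_cons', wr_up]
    exact h6

theorem path_seg {B : List W} (f : Bool) {c : W × Bool} (hc : c.1 ∈ B) {j i : ℕ} (hji : j ≤ i)
    (hi : i ≤ (wr c).length) : ∃ L, Path (epL B) (edL B) (f, c, j) (f, c, i) L ∧
      FreeGroup.mk ((wr c).take j) * FreeGroup.mk L = FreeGroup.mk ((wr c).take i) := by
  induction i, hji using Nat.le_induction with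
  | base => exact ⟨[], Path.nil _, by simp⟩
  | succ i hji ih =>
    obtain ⟨L, h1, h2⟩ := ih (Nat.le_of_succ_le hi)
    refine ⟨L ++ [(wr c).getD i (0, true)],
      h1.append (Path.ltr (mem_edL.2 ⟨f, c, i, hc, hi, rfl⟩) (Path.nil _)), ?_⟩
    rw [mk_take_succ hi, ← h2, mul_assoc, ← FreeGroup.mul_mk]

theorem path_complete {B : List W} {d : {b // b ∈ B} × Bool} {i : ℕ}
    (hi : i ≤ (wd Subtype.val d).length) (v : List ({b // b ∈ B} × Bool)) :
    ∀ (f : Bool) (c : {b // b ∈ B} × Bool) (j : ℕ), j ≤ (wd Subtype.val c).length →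
      FreeGroup.IsReduced (c :: (v ++ [d])) →
      ∃ L, Path (epL B) (edL B) (f, up c, j) (true, up d, i) L ∧
        FreeGroup.mk ((wd Subtype.val c).take j) * FreeGroup.mk L =
          FreeGroup.mk (wd Subtype.val c) * (FreeGroup.mk (flat Subtype.val v) *
            FreeGroup.mk ((wd Subtype.val d).take i)) := by
  induction v with
  | nil =>
    intro f c j hj hr
    obtain ⟨L, h1, h2⟩ := path_seg f (up_mem c) hj le_rfl
    obtain ⟨M, h3, h4⟩ := path_seg true (up_mem d) (Nat.zero_le i) hi
    have hne := up_ne_iff.2 (rel_iff_ne_linv.1 (isReduced_cons_cons.1 hr).1)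
    refine ⟨L ++ M, h1.append (Path.eps (mem_epL.2 ⟨f, _, _, up_mem c, up_mem d, hne, rfl⟩) h3), ?_⟩
    rw [wr_up] at h2 h4
    rw [List.take_length] at h2
    simp only [List.take_zero, ← FreeGroup.one_eq_mk, one_mul] at h4
    rw [← FreeGroup.mul_mk, ← mul_assoc, h2, h4]
    simp [← FreeGroup.one_eq_mk]
  | cons e v ih =>
    intro f c j hj hr
    obtain ⟨L, h1, h2⟩ := path_seg f (up_mem c) hj le_rfl
    obtain ⟨hr1, hr2⟩ := isReduced_cons_cons.1 hr
    obtain ⟨M, h3, h4⟩ := ih true e 0 (Nat.zero_le _) hr2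
    have hne := up_ne_iff.2 (rel_iff_ne_linv.1 hr1)
    refine ⟨L ++ M, h1.append (Path.eps (mem_epL.2 ⟨f, _, _, up_mem c, up_mem e, hne, rfl⟩) h3), ?_⟩
    rw [wr_up] at h2
    rw [List.take_length] at h2
    simp only [List.take_zero, ← FreeGroup.one_eq_mk, one_mul] at h4
    rw [← FreeGroup.mul_mk, ← mul_assoc, h2, h4, flat_cons, ← FreeGroup.mul_mk, mul_assoc]

/-- Decision procedure for `Bad`. -/
def badb (B : List W) (c : W × Bool) : Bool :=
  (List.range ((wr c).length + 1)).all fun j => (Cs B).any fun d =>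
    (List.range ((wr d).length + 1)).any fun i =>
      trivb (epL B) (edL B) (false, c, j) (true, d, i)

theorem badb_iff {B : List W} (c : {b // b ∈ B} × Bool) :
    badb B (up c) = true ↔ Bad Subtype.val c := by
  simp only [badb, List.all_eq_true, List.any_eq_true, List.mem_range, Nat.lt_succ_iff, mem_Cs,
    trivb_iff]
  constructor
  · intro h t ht
    rw [wd_linv, mem_PS_invRev] at ht
    obtain ⟨j, hj, e⟩ := mem_PS'.1 ht
    obtain ⟨d', -, i', -, L, hL, h1⟩ := h j hj
    obtain ⟨d, i, -, h3 | ⟨v, h3, h4⟩⟩ := path_sound hL false c j rfl hj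
    · exact absurd h3.1 (by simp)
    · refine ⟨v, d, h3, _, ⟨i, rfl⟩, ?_⟩
      rw [h1, mul_one, ← e] at h4
      exact mul_left_cancel h4
  · intro h j hj
    have ht : (FreeGroup.mk (wd Subtype.val c))⁻¹ * FreeGroup.mk ((wd Subtype.val c).take j) ∈
        PS (wd Subtype.val (linv c)) := mul_mem_PS_wd_linv ⟨j, rfl⟩
    obtain ⟨v, d, hr, t', ht', e⟩ := h _ ht
    obtain ⟨i, hi, rfl⟩ := mem_PS'.1 ht'
    obtain ⟨L, h1, h2⟩ := path_complete hi v false c j hj hr
    refine ⟨up d, up_mem d, i, hi, L, h1, ?_⟩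
    rw [← e, mul_inv_cancel_left] at h2
    exact mul_eq_left.1 h2

/-- Free reduction as a fold. -/
def red (u : W) : W :=
  u.foldr (fun x acc => cond (eqb acc.head? (some (x.1, !x.2))) acc.tail (x :: acc)) []

theorem red_eq (u : W) : red u = reduce u := by
  induction u with
  | nil => rfl
  | cons x u ih =>
    have e : red (x :: u) =
        cond (eqb (red u).head? (some (x.1, !x.2))) (red u).tail (x :: red u) := rfl
    rw [e, ih, reduce.cons]
    rcases reduce u with _ | ⟨⟨a, b⟩, tl⟩
    · simp [eqb]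
    · obtain ⟨y, s⟩ := x
      by_cases h : y = a ∧ s = !b
      · obtain ⟨rfl, rfl⟩ := h
        simp [eqb]
      · have : ¬ (a = y ∧ b = !s) := by
          rintro ⟨rfl, rfl⟩
          simp at h
        simp [eqb, h, this]

/-- Word problem of the free group. -/
def eqg (u v : W) : Bool := eqb (red u) (red v)

theorem eqg_iff {u v : W} : eqg u v = true ↔ FreeGroup.mk u = FreeGroup.mk v := by
  rw [eqg, eqb_iff, red_eq, red_eq]
  exact ⟨reduce.exact, reduce.sound⟩

/-- The vertex named by `u` is visited by `a`. -/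
def inPS (a u : W) : Bool := (List.range (a.length + 1)).any fun j => eqg u (a.take j)

theorem inPS_iff {a u : W} : inPS a u = true ↔ FreeGroup.mk u ∈ PS a := by
  simp only [inPS, List.any_eq_true, List.mem_range, Nat.lt_succ_iff, eqg_iff, mem_PS']

/-- The tree of `c` placed at position `i` of `a` lies in the tree of `a`. -/
def fits (a : W) (i : ℕ) (c : W × Bool) : Bool :=
  (List.range ((wr c).length + 1)).all fun k => inPS a (a.take i ++ (wr c).take k)

theorem fits_iff {a : W} {i : ℕ} {c : W × Bool} :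
    fits a i c = true ↔ ∀ t ∈ PS (wr c), FreeGroup.mk (a.take i) * t ∈ PS a := by
  simp only [fits, List.all_eq_true, List.mem_range, Nat.lt_succ_iff, inPS_iff]
  constructor
  · intro h t ht
    obtain ⟨k, hk, rfl⟩ := mem_PS'.1 ht
    exact h k hk
  · intro h k _
    exact h _ ⟨k, rfl⟩

/-- Closed sets of positions. -/
def closedS (B : List W) (a : W) (S : List ℕ) : Bool :=
  ((List.range (a.length + 1)).all fun j => !(eqg (a.take j) []) || memb j S) &&
  S.all fun i => (Cs B).all fun c => !(fits a i c) ||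
    (List.range (a.length + 1)).all fun j => !(eqg (a.take i ++ wr c) (a.take j)) || memb j S

theorem closedS_iff {B : List W} {a : W} {S : List ℕ} : closedS B a S = true ↔
    (∀ j ≤ a.length, FreeGroup.mk (a.take j) = 1 → j ∈ S) ∧
    ∀ i ∈ S, ∀ c : W × Bool, c.1 ∈ B → fits a i c = true → ∀ j ≤ a.length,
      FreeGroup.mk (a.take i) * FreeGroup.mk (wr c) = FreeGroup.mk (a.take j) → j ∈ S := by
  simp only [closedS, Bool.and_eq_true, List.all_eq_true, Bool.or_eq_true, Bool.not_eq_true',
    ← Bool.not_eq_true, ← imp_iff_not_or, List.mem_range, Nat.lt_succ_iff, eqg_iff, memb_iff,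
    mem_Cs, FreeGroup.mul_mk, FreeGroup.one_eq_mk]

/-- Decision procedure for reachable positions. -/
def reachb (B : List W) (a : W) (i : ℕ) : Bool :=
  (subl (List.range (a.length + 1))).all fun S => !(closedS B a S) || memb i S

/-- Reachable positions. -/
def Reach (B : List W) (a : W) (i : ℕ) : Prop :=
  ∃ v : List ({b // b ∈ B} × Bool), FreeGroup.mk (flat Subtype.val v) = FreeGroup.mk (a.take i) ∧
    PS (flat Subtype.val v) ⊆ PS a

theorem reachb_iff {B : List W} {a : W} {i : ℕ} (hi : i ≤ a.length) :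
    reachb B a i = true ↔ Reach B a i := by
  classical
  simp only [reachb, List.all_eq_true, Bool.or_eq_true, Bool.not_eq_true', ← Bool.not_eq_true,
    ← imp_iff_not_or, memb_iff, closedS_iff]
  constructor
  · intro h
    have hm : ∀ j, j ∈ (List.range (a.length + 1)).filter (fun j => decide (Reach B a j)) ↔
        j ≤ a.length ∧ Reach B a j := by
      intro j
      simp
    refine ((hm i).1 (h _ (filter_mem_subl _ _) ⟨?_, ?_⟩)).2
    · intro j hj e
      refine (hm j).2 ⟨hj, [], e.symm, fun g hg => ?_⟩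
      rw [mem_PS_nil.1 hg]
      exact one_mem_PS _
    · intro k hk c hc hf j hj e
      obtain ⟨c, rfl⟩ := exists_up hc
      obtain ⟨-, v, h1, h2⟩ := (hm k).1 hk
      refine (hm j).2 ⟨hj, v ++ [c], ?_, fun g hg => ?_⟩
      · rw [← e, ← h1, FreeGroup.mul_mk, wr_up]
        simp
      · rw [flat_append, mem_PS_append] at hg
        rcases hg with hg | ⟨t, ht, rfl⟩
        · exact h2 hg
        · rw [h1]
          exact fits_iff.1 hf t (by simpa [wr_up] using ht)
  · rintro ⟨v, h1, h2⟩ S - ⟨h3, h4⟩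
    induction v using List.reverseRecOn generalizing i with
    | nil => exact h3 i hi h1.symm
    | append_singleton v c ih =>
      have h5 : PS (flat Subtype.val v) ⊆ PS a := fun g hg => h2 (by
        rw [flat_append, mem_PS_append]; exact Or.inl hg)
      obtain ⟨k, hk, e⟩ := mem_PS'.1 (h5 (mk_mem_PS _))
      refine h4 k (ih hk e h5) (up c) (up_mem c) (fits_iff.2 fun t ht => h2 ?_) i hi ?_
      · rw [flat_append, mem_PS_append]
        exact Or.inr ⟨t, by simpa [wr_up] using ht, by rw [e]⟩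
      · rw [← h1, ← e, FreeGroup.mul_mk, wr_up]
        simp

/-- Decision procedure for membership in the generated inverse subsemigroup. -/
def memWb (B : List W) (a : W) : Bool :=
  reachb B a a.length && (List.range (a.length + 1)).all fun j =>
    (List.range (a.length + 1)).any fun i => reachb B a i && (Cs B).any fun c => fits a i c &&
      (List.range ((wr c).length + 1)).any fun k => eqg (a.take i ++ (wr c).take k) (a.take j)

theorem memWb_iff {B : List W} {a : W} :
    memWb B a = true ↔ MemW (Subtype.val : {b // b ∈ B} → W) a := by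
  simp only [memWb, Bool.and_eq_true, List.all_eq_true, List.any_eq_true, List.mem_range,
    Nat.lt_succ_iff, eqg_iff, mem_Cs, reachb_iff le_rfl]
  constructor
  · rintro ⟨⟨v₀, e₀, s₀⟩, h⟩
    have one : ∀ j ≤ a.length, ∃ u : List ({b // b ∈ B} × Bool), u ≠ [] ∧
        FreeGroup.mk (flat Subtype.val u) = 1 ∧ PS (flat Subtype.val u) ⊆ PS a ∧
        FreeGroup.mk (a.take j) ∈ PS (flat Subtype.val u) := by
      intro j hj
      obtain ⟨i, hi, hr, c, hc, hf, k, -, e⟩ := h j hj
      obtain ⟨c, rfl⟩ := exists_up hc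
      obtain ⟨v, h1, h2⟩ := (reachb_iff hi).1 hr
      have h3 : PS (flat Subtype.val (v ++ [c])) ⊆ PS a := by
        intro g hg
        rw [flat_append, mem_PS_append] at hg
        rcases hg with hg | ⟨t, ht, rfl⟩
        · exact h2 hg
        · rw [h1]
          exact fits_iff.1 hf t (by simpa [wr_up] using ht)
      refine ⟨(v ++ [c]) ++ invRev (v ++ [c]), by simp, ?_, ?_, ?_⟩
      · rw [flat_append, flat_invRev, ← FreeGroup.mul_mk, ← inv_mk, mul_inv_cancel]
      · intro g hg
        rw [flat_append, flat_invRev, mem_PS_append] at hg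
        rcases hg with hg | ⟨t, ht, rfl⟩
        · exact h3 hg
        · exact h3 (mem_PS_invRev.1 ht)
      · rw [flat_append, mem_PS_append, flat_append, mem_PS_append]
        refine Or.inl (Or.inr ⟨FreeGroup.mk ((wr (up c)).take k), ?_, ?_⟩)
        · simp only [flat_cons, flat_nil, List.append_nil]
          exact ⟨k, rfl⟩
        · rw [← e, h1, FreeGroup.mul_mk]
    have key : ∀ n ≤ a.length, ∃ u : List ({b // b ∈ B} × Bool), u ≠ [] ∧
        FreeGroup.mk (flat Subtype.val u) = 1 ∧ PS (flat Subtype.val u) ⊆ PS a ∧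
        ∀ j ≤ n, FreeGroup.mk (a.take j) ∈ PS (flat Subtype.val u) := by
      intro n
      induction n with
      | zero =>
        intro hn
        obtain ⟨u, h1, h2, h3, h4⟩ := one 0 hn
        exact ⟨u, h1, h2, h3, fun k hk => by rwa [Nat.le_zero.1 hk]⟩
      | succ n ih =>
        intro hn
        obtain ⟨u, h1, h2, h3, h4⟩ := ih (Nat.le_of_succ_le hn)
        obtain ⟨u', h1', h2', h3', h4'⟩ := one (n + 1) hn
        refine ⟨u ++ u', by simp [h1], by
          rw [flat_append, ← FreeGroup.mul_mk, h2, h2', one_mul], ?_, ?_⟩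
        · intro g hg
          rw [flat_append] at hg
          rcases mem_PS_append.1 hg with hg | ⟨t, ht, rfl⟩
          · exact h3 hg
          · rw [h2, one_mul]
            exact h3' ht
        · intro k hk
          rw [flat_append, mem_PS_append]
          rcases Nat.of_le_succ hk with hk | rfl
          · exact Or.inl (h4 k hk)
          · exact Or.inr ⟨_, h4', by rw [h2, one_mul]⟩
    obtain ⟨u, h1, h2, h3, h4⟩ := key _ le_rfl
    refine ⟨u ++ v₀, by simp [h1], Prod.ext (Set.Subset.antisymm ?_ ?_) ?_⟩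
    · intro g hg
      change g ∈ PS (flat Subtype.val (u ++ v₀)) at hg
      rw [flat_append] at hg
      rcases mem_PS_append.1 hg with hg | ⟨t, ht, rfl⟩
      · exact h3 hg
      · rw [h2, one_mul]
        exact s₀ ht
    · intro g hg
      obtain ⟨j, hj, rfl⟩ := mem_PS'.1 hg
      change _ ∈ PS (flat Subtype.val (u ++ v₀))
      rw [flat_append, mem_PS_append]
      exact Or.inl (h4 j hj)
    · change FreeGroup.mk (flat Subtype.val (u ++ v₀)) = FreeGroup.mk a
      rw [flat_append, ← FreeGroup.mul_mk, h2, one_mul, e₀, List.take_length]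
  · rintro ⟨v, hv, e⟩
    have h1 : PS (flat Subtype.val v) = PS a := congrArg Prod.fst e
    have h2 : FreeGroup.mk (flat Subtype.val v) = FreeGroup.mk a := congrArg Prod.snd e
    refine ⟨⟨v, by rw [h2, List.take_length], h1.le⟩, fun j hj => ?_⟩
    have h3 : FreeGroup.mk (a.take j) ∈ PS (flat Subtype.val v) := h1 ▸ ⟨j, rfl⟩
    have h4 : ∃ s c r, v = s ++ c :: r ∧ ∃ t ∈ PS (wd Subtype.val c),
        FreeGroup.mk (a.take j) = gb Subtype.val (FreeGroup.mk s) * t := by
      rcases mem_PS_flat.1 h3 with h4 | h4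
      · obtain ⟨c, r, rfl⟩ := List.exists_cons_of_ne_nil hv
        exact ⟨[], c, r, rfl, 1, one_mem_PS _, by rw [h4]; simp [← FreeGroup.one_eq_mk]⟩
      · exact h4
    obtain ⟨s, c, r, rfl, t, ht, e'⟩ := h4
    have h5 : PS (flat Subtype.val s) ⊆ PS a := fun g hg => h1.le (by
      rw [flat_append, mem_PS_append]; exact Or.inl hg)
    obtain ⟨i, hi, e''⟩ := mem_PS'.1 (h5 (mk_mem_PS _))
    obtain ⟨k, hk, rfl⟩ := mem_PS'.1 ht
    refine ⟨i, hi, (reachb_iff hi).2 ⟨s, e'', h5⟩, up c, up_mem c,
      fits_iff.2 fun t ht => h1.le ?_, k, hk, ?_⟩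
    · exact mem_PS_flat.2 (Or.inr ⟨s, c, r, rfl, t, ht, by rw [gb_mk, e'']⟩)
    · rw [e', gb_mk, e'', FreeGroup.mul_mk, wr_up]

/-- The decision procedure. -/
def decb (gens : List W) : Bool :=
  (gens.all fun w => !(eqb w [])) && (subl (gens ++ gens.map fun w => invRev w)).any fun B =>
    ((Cs B).all fun c => !(badb B c)) && gens.all fun a => memWb B a

theorem decb_iff (gens : List W) :
    ((∀ w ∈ gens, w ≠ []) ∧ IsFreeGen gens) ↔ decb gens = true := by
  rw [isFreeGen_iff]
  simp only [decb, Bool.and_eq_true, List.all_eq_true, List.any_eq_true, Bool.not_eq_true',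
    ← Bool.not_eq_true, eqb_iff, memWb_iff, mem_Cs]
  refine and_congr Iff.rfl (exists_congr fun B => and_congr Iff.rfl (and_congr ?_ Iff.rfl))
  constructor
  · intro h c hc
    obtain ⟨c, rfl⟩ := exists_up hc
    rw [badb_iff]
    exact h c
  · intro h c
    rw [← badb_iff]
    exact h _ (up_mem c)

section Prim

variable {α : Type} [Primcodable α]

@[fun_prop] theorem p_invRev {f : α → W} (hf : Primrec f) : Primrec (fun a => invRev (f a)) := by
  unfold invRev; fun_prop

@[fun_prop] theorem p_wr {f : α → W × Bool} (hf : Primrec f) : Primrec (fun a => wr (f a)) := by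
  unfold wr; fun_prop

@[fun_prop] theorem p_Cs {f : α → List W} (hf : Primrec f) : Primrec (fun a => Cs (f a)) := by
  unfold Cs; fun_prop

@[fun_prop] theorem p_edL {f : α → List W} (hf : Primrec f) : Primrec (fun a => edL (f a)) := by
  unfold edL; fun_prop

@[fun_prop] theorem p_epL {f : α → List W} (hf : Primrec f) : Primrec (fun a => epL (f a)) := by
  unfold epL; fun_prop

@[fun_prop] theorem p_badb {f : α → List W} {g : α → W × Bool} (hf : Primrec f)
    (hg : Primrec g) : Primrec (fun a => badb (f a) (g a)) := by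
  unfold badb; fun_prop

@[fun_prop] theorem p_red {f : α → W} (hf : Primrec f) : Primrec (fun a => red (f a)) := by
  unfold red; fun_prop

@[fun_prop] theorem p_eqg {f g : α → W} (hf : Primrec f) (hg : Primrec g) :
    Primrec (fun a => eqg (f a) (g a)) := by
  unfold eqg; fun_prop

@[fun_prop] theorem p_inPS {f g : α → W} (hf : Primrec f) (hg : Primrec g) :
    Primrec (fun a => inPS (f a) (g a)) := by
  unfold inPS; fun_prop

@[fun_prop] theorem p_fits {f : α → W} {g : α → ℕ} {h : α → W × Bool} (hf : Primrec f)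
    (hg : Primrec g) (hh : Primrec h) : Primrec (fun a => fits (f a) (g a) (h a)) := by
  unfold fits; fun_prop

@[fun_prop] theorem p_closedS {f : α → List W} {g : α → W} {h : α → List ℕ} (hf : Primrec f)
    (hg : Primrec g) (hh : Primrec h) : Primrec (fun a => closedS (f a) (g a) (h a)) := by
  unfold closedS; fun_prop

@[fun_prop] theorem p_reachb {f : α → List W} {g : α → W} {h : α → ℕ} (hf : Primrec f)
    (hg : Primrec g) (hh : Primrec h) : Primrec (fun a => reachb (f a) (g a) (h a)) := by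
  unfold reachb; fun_prop

@[fun_prop] theorem p_memWb {f : α → List W} {g : α → W} (hf : Primrec f)
    (hg : Primrec g) : Primrec (fun a => memWb (f a) (g a)) := by
  unfold memWb; fun_prop

theorem p_decb : Primrec decb := by
  unfold decb; fun_prop

end Prim

theorem main : ComputablePred (fun gens : List W => (∀ w ∈ gens, w ≠ []) ∧ IsFreeGen gens) :=
  computablePred_of_bool p_decb decb_iff

end Pool.Agent.P.MP_ab6a8b_al
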