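import Mathlib
import Pool.Agent.Lib.PrimrecProp.Basic
import Pool.Agent.P.MP_ab6a8b_al.Char

/-! The tree inequality in a free group, bounded words and finite balls. -/

set_option autoImplicit false

namespace Pool.Agent.P.MP_ab6a8b_al

open FreeGroup hiding map_mul map_one map_inv
open Pointwise Pool.Agent.Lib.PrimrecProp

variable {X Z γ δ : Type}

/-- Length of the longest common initial segment. -/
def lcp [DecidableEq γ] : List γ → List γ → ℕ
  | a :: u, b :: v => if a = b then lcp u v + 1 else 0
  | _, _ => 0

theorem lcp_comm [DecidableEq γ] (u v : List γ) : lcp u v = lcp v u := by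
  induction u generalizing v with
  | nil => cases v <;> simp [lcp]
  | cons a u ih =>
    cases v with
    | nil => simp [lcp]
    | cons b v =>
      by_cases h : a = b
      · subst h; simp [lcp, ih]
      · simp [lcp, h, Ne.symm h]

theorem lcp_ultra [DecidableEq γ] (u v w : List γ) : min (lcp u v) (lcp v w) ≤ lcp u w := by
  induction u generalizing v w with
  | nil => cases v <;> simp [lcp]
  | cons a u ih =>
    cases v with
    | nil => simp [lcp]
    | cons b v =>
      cases w with
      | nil => simp [lcp]
      | cons c w =>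
        by_cases h : a = b
        · subst h
          by_cases h' : a = c
          · subst h'
            have := ih v w
            simp only [lcp, if_true]
            omega
          · simp [lcp, h']
        · simp [lcp, h]

theorem norm_mk_of_reduced [DecidableEq X] {u : List (X × Bool)} (h : IsReduced u) :
    norm (FreeGroup.mk u) = u.length := by
  unfold FreeGroup.norm
  rw [toWord_mk, h.reduce_eq]

theorem norm_inv_mul_mk [DecidableEq X] (u v : List (X × Bool)) (hu : IsReduced u)
    (hv : IsReduced v) :
    norm ((FreeGroup.mk u)⁻¹ * FreeGroup.mk v) + 2 * lcp u v = u.length + v.length := by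
  induction u generalizing v with
  | nil =>
    have : lcp ([] : List (X × Bool)) v = 0 := by cases v <;> rfl
    rw [this, ← FreeGroup.one_eq_mk, inv_one, one_mul, norm_mk_of_reduced hv]
    simp
  | cons a u ih =>
    cases v with
    | nil =>
      have : lcp (a :: u) ([] : List (X × Bool)) = 0 := rfl
      rw [this, ← FreeGroup.one_eq_mk, mul_one, norm_inv_eq, norm_mk_of_reduced hu]
      simp
    | cons b v =>
      by_cases h : a = b
      · subst h
        have e1 : FreeGroup.mk (a :: u) = FreeGroup.mk [a] * FreeGroup.mk u := rfl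
        have e2 : FreeGroup.mk (a :: v) = FreeGroup.mk [a] * FreeGroup.mk v := rfl
        have e3 : (FreeGroup.mk (a :: u))⁻¹ * FreeGroup.mk (a :: v) =
            (FreeGroup.mk u)⁻¹ * FreeGroup.mk v := by rw [e1, e2]; group
        have := ih v (List.IsChain.tail hu) (List.IsChain.tail hv)
        rw [e3]
        simp only [lcp, if_true, List.length_cons]
        omega
      · have hr : IsReduced (invRev (a :: u)) := by
          apply IsReduced.of_reduce_eq
          rw [reduce_invRev, hu.reduce_eq]
        have hr2 : IsReduced (invRev (a :: u) ++ b :: v) := by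
          refine List.IsChain.append hr hv ?_
          intro x hx y hy
          rw [invRev_cons, invRev_singleton] at hx
          simp only [List.getLast?_append, List.getLast?_singleton, Option.some_or,
            Option.mem_def, Option.some.injEq] at hx
          simp only [List.head?_cons, Option.mem_def, Option.some.injEq] at hy
          subst hx hy
          rw [rel_iff_ne_linv, linv_linv]
          exact Ne.symm h
        rw [inv_mk, FreeGroup.mul_mk, norm_mk_of_reduced hr2]
        simp [lcp, h]

/-- The Rips inequality in the Cayley tree. -/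
theorem rips [DecidableEq X] (a b c : FreeGroup X) (K : ℕ) (ha : norm a ≤ norm b)
    (hc : norm c ≤ norm b) (h1 : norm (a⁻¹ * b) ≤ K) (h2 : norm (b⁻¹ * c) ≤ K) :
    norm (a⁻¹ * c) ≤ K := by
  have e1 := norm_inv_mul_mk a.toWord b.toWord isReduced_toWord isReduced_toWord
  have e2 := norm_inv_mul_mk b.toWord c.toWord isReduced_toWord isReduced_toWord
  have e3 := norm_inv_mul_mk a.toWord c.toWord isReduced_toWord isReduced_toWord
  have e4 := lcp_ultra a.toWord b.toWord c.toWord
  rw [mk_toWord, mk_toWord] at e1 e2 e3
  unfold FreeGroup.norm at ha hc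
  omega

/-- All lists over `L` of length at most `n`. -/
def wordsLe (L : List γ) (n : ℕ) : List (List γ) :=
  (List.range n).foldr (fun _ acc => [] :: L.flatMap fun c => acc.map fun v => c :: v) [[]]

theorem mem_wordsLe_aux (L : List γ) (l : List ℕ) (v : List γ) :
    v ∈ l.foldr (fun _ acc => [] :: L.flatMap fun c => acc.map fun v => c :: v) [[]] ↔
      v.length ≤ l.length ∧ ∀ c ∈ v, c ∈ L := by
  induction l generalizing v with
  | nil => cases v <;> simp
  | cons i l ih =>
    cases v with
    | nil => simp
    | cons d v =>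
      simp only [List.foldr_cons, List.mem_cons, List.mem_flatMap, List.mem_map, ih,
        List.length_cons, forall_eq_or_imp]
      constructor
      · rintro (h | ⟨c, hc, w, ⟨h1, h2⟩, h3⟩)
        · exact absurd h (by simp)
        · obtain ⟨rfl, rfl⟩ := List.cons.inj h3
          exact ⟨by omega, hc, h2⟩
      · rintro ⟨h1, h2, h3⟩
        exact Or.inr ⟨d, h2, v, ⟨by omega, h3⟩, rfl⟩

theorem mem_wordsLe {L : List γ} {n : ℕ} {v : List γ} :
    v ∈ wordsLe L n ↔ v.length ≤ n ∧ ∀ c ∈ v, c ∈ L := by
  unfold wordsLe
  rw [mem_wordsLe_aux, List.length_range]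

@[fun_prop] theorem p_wordsLe {α : Type} [Primcodable α] [Primcodable γ] {f : α → List γ}
    {g : α → ℕ} (hf : Primrec f) (hg : Primrec g) : Primrec (fun a => wordsLe (f a) (g a)) := by
  unfold wordsLe; fun_prop

theorem finite_ball [DecidableEq X] (L : List (X × Bool)) (R : ℕ) :
    {g : FreeGroup X | (∃ w : List (X × Bool), (∀ x ∈ w, x ∈ L) ∧ g = FreeGroup.mk w) ∧
      norm g ≤ R}.Finite := by
  refine ((wordsLe L R).finite_toSet.image FreeGroup.mk).subset ?_
  rintro g ⟨⟨w, hw, rfl⟩, hR⟩
  refine ⟨reduce w, mem_wordsLe.2 ⟨hR, fun x hx => hw x ?_⟩, reduce.self⟩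
  exact (Red.sublist reduce.red).subset hx

/-- A finite set of values is reached by words of bounded length. -/
theorem exists_bound (f : List γ → δ) (p : List γ → Prop) (h : (f '' {v | p v}).Finite) :
    ∃ M : ℕ, ∀ v, p v → ∃ v', p v' ∧ v'.length ≤ M ∧ f v' = f v := by
  have h1 : ∀ x : (f '' {v | p v}), ∃ v', p v' ∧ f v' = x := fun x => x.2
  choose r hr1 hr2 using h1
  have := h.to_subtype
  obtain ⟨M, hM⟩ := (Set.finite_range fun x => (r x).length).bddAbove
  exact ⟨M, fun v hv => ⟨r ⟨f v, v, hv, rfl⟩, hr1 _, hM ⟨_, rfl⟩, hr2 _⟩⟩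

theorem norm_le_of_mem_PS [DecidableEq X] {w : List (X × Bool)} {g : FreeGroup X}
    (h : g ∈ PS w) : norm g ≤ w.length := by
  obtain ⟨s, r, rfl, rfl⟩ := mem_PS.1 h
  exact norm_mk_le.trans (by simp)

theorem norm_le_add [DecidableEq X] (a b : FreeGroup X) : norm a ≤ norm (a * b) + norm b := by
  have := norm_mul_le (a * b) b⁻¹
  rwa [mul_inv_cancel_right, norm_inv_eq] at this

end Pool.Agent.P.MP_ab6a8b_al
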