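import Mathlib
import Pool.Agent.P.MP_ab6a8b_al.IsoRips

/-! A finite certificate for the equality of the kernels of two maps between free inverse
semigroups. -/

set_option autoImplicit false

namespace Pool.Agent.P.MP_ab6a8b_al

open FreeGroup hiding map_mul map_one map_inv
open Pointwise Pool.Agent.Lib.PrimrecProp

variable {X Z : Type}

/-- Words over a list of letters and their formal inverses. -/
def Over (P : List Z) (v : List (Z × Bool)) : Prop := ∀ c ∈ v, c.1 ∈ P

theorem Over.nil (P : List Z) : Over P [] := fun _ h => absurd h (by simp)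

theorem over_append {P : List Z} {u v : List (Z × Bool)} :
    Over P (u ++ v) ↔ Over P u ∧ Over P v := by
  simp only [Over, List.mem_append, or_imp, forall_and]

theorem over_single {P : List Z} {c : Z × Bool} : Over P [c] ↔ c.1 ∈ P := by simp [Over]

theorem Over.invRev {P : List Z} {v : List (Z × Bool)} (h : Over P v) : Over P (invRev v) := by
  intro c hc
  simp only [FreeGroup.invRev, List.mem_reverse, List.mem_map] at hc
  obtain ⟨d, hd, rfl⟩ := hc
  exact h d hd

/-- The group element named by a substituted word. -/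
def gw (α : Z → List (X × Bool)) (v : List (Z × Bool)) : FreeGroup X := FreeGroup.mk (flat α v)

theorem gw_nil (α : Z → List (X × Bool)) : gw α [] = 1 := rfl

theorem gw_append (α : Z → List (X × Bool)) (u v : List (Z × Bool)) :
    gw α (u ++ v) = gw α u * gw α v := by
  simp only [gw, flat_append, FreeGroup.mul_mk]

theorem gw_invRev (α : Z → List (X × Bool)) (v : List (Z × Bool)) :
    gw α (invRev v) = (gw α v)⁻¹ := by
  simp only [gw, flat_invRev, inv_mk]

theorem flat_single' (α : Z → List (X × Bool)) (c : Z × Bool) : flat α [c] = wd α c := by simp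

theorem mem_PS_gw {α : Z → List (X × Bool)} {v : List (Z × Bool)} {g : FreeGroup X} :
    g ∈ PS (flat α v) ↔ g = 1 ∨ ∃ s c r, v = s ++ c :: r ∧
      ∃ t ∈ PS (wd α c), g = gw α s * t := by
  simp only [mem_PS_flat, gb_mk, gw]

/-- Inclusion of kernels. -/
def KerLe (P : List Z) (α β : Z → List (X × Bool)) : Prop :=
  ∀ v v', Over P v → Over P v' → v ≠ [] → v' ≠ [] →
    mu (flat α v) = mu (flat α v') → mu (flat β v) = mu (flat β v')

/-- Bound on the lengths. -/
def C0 (P : List Z) (α : Z → List (X × Bool)) (K : ℕ) : Prop := ∀ z ∈ P, (α z).length ≤ K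

/-- Short relations of the group hold in the other group. -/
def C2 (P : List Z) (α β : Z → List (X × Bool)) (m : ℕ) : Prop :=
  ∀ u, Over P u → u.length ≤ m → gw α u = 1 → gw β u = 1

/-- Short coverings hold on the other side. -/
def C4 (P : List Z) (α β : Z → List (X × Bool)) (M : ℕ) : Prop :=
  ∀ c : Z × Bool, c.1 ∈ P → ∀ v, Over P v → v.length ≤ M →
    PS (wd α c) ⊆ PS (flat α v) → PS (wd β c) ⊆ PS (flat β v)

theorem C0.wd_le {P : List Z} {α : Z → List (X × Bool)} {K : ℕ} (h : C0 P α K) {c : Z × Bool}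
    (hc : c.1 ∈ P) : (wd α c).length ≤ K := by
  obtain ⟨z, b⟩ := c
  cases b
  · simpa [wd] using h z hc
  · simpa [wd] using h z hc

theorem C0.flat_le {P : List Z} {α : Z → List (X × Bool)} {K : ℕ} (h : C0 P α K)
    {v : List (Z × Bool)} (hv : Over P v) : (flat α v).length ≤ v.length * K := by
  induction v with
  | nil => simp
  | cons c v ih =>
    have h1 := h.wd_le (hv c (by simp))
    have h2 := ih fun d hd => hv d (by simp [hd])
    rw [flat_cons, List.length_append, List.length_cons, Nat.succ_mul]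
    omega

/-- The edge `c` is read at the vertex `h`. -/
def Edge (α : Z → List (X × Bool)) (v : List (Z × Bool)) (h : FreeGroup X) (c : Z × Bool) :
    Prop := ∃ s r, v = s ++ c :: r ∧ gw α s = h

theorem edge_append {α : Z → List (X × Bool)} {x y : List (Z × Bool)} {h : FreeGroup X}
    {c : Z × Bool} :
    Edge α (x ++ y) h c ↔ Edge α x h c ∨ ∃ h', Edge α y h' c ∧ h = gw α x * h' := by
  constructor
  · rintro ⟨s, r, h1, rfl⟩
    rcases List.append_eq_append_iff.1 h1 with ⟨a, rfl, h2⟩ | ⟨a, h2, h3⟩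
    · exact Or.inr ⟨_, ⟨a, r, h2, rfl⟩, gw_append _ _ _⟩
    · cases a with
      | nil =>
        rw [List.append_nil] at h2
        rw [List.nil_append] at h3
        exact Or.inr ⟨1, ⟨[], r, h3.symm, rfl⟩, by rw [h2, mul_one]⟩
      | cons d a =>
        obtain ⟨rfl, -⟩ := List.cons.inj h3
        exact Or.inl ⟨s, a, h2, rfl⟩
  · rintro (⟨s, r, rfl, rfl⟩ | ⟨h', ⟨s, r, rfl, rfl⟩, rfl⟩)
    · exact ⟨s, r ++ y, by simp, rfl⟩
    · exact ⟨x ++ s, r, by simp, gw_append _ _ _⟩

variable [DecidableEq X]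

/-- Short group elements have short words. -/
def C1 (P : List Z) (α β : Z → List (X × Bool)) (K m : ℕ) : Prop :=
  ∀ u, Over P u → u.length ≤ 2 * m → norm (gw α u) ≤ 2 * K →
    ∃ u', Over P u' ∧ u'.length ≤ m ∧ gw α u' = gw α u ∧ gw β u' = gw β u

/-- The tree of the word lies in the ball of radius `R`. -/
def Ins (α : Z → List (X × Bool)) (R : ℕ) (v : List (Z × Bool)) : Prop :=
  ∀ g ∈ PS (flat α v), norm g ≤ R

/-- Elements inside the ball have short words. -/
def C3 (P : List Z) (α β : Z → List (X × Bool)) (R M : ℕ) : Prop :=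
  ∀ v, Over P v → v.length ≤ M + 1 → Ins α R v → ∃ v', Over P v' ∧ v'.length ≤ M ∧
    mu (flat α v') = mu (flat α v) ∧ mu (flat β v') = mu (flat β v)

theorem C0.gw_le {P : List Z} {α : Z → List (X × Bool)} {K : ℕ} (h : C0 P α K)
    {v : List (Z × Bool)} (hv : Over P v) : norm (gw α v) ≤ v.length * K :=
  norm_mk_le.trans (h.flat_le hv)

theorem C0.edge_le {P : List Z} {α : Z → List (X × Bool)} {K : ℕ} (h : C0 P α K)
    {v : List (Z × Bool)} (hv : Over P v) {g : FreeGroup X} {c : Z × Bool} (he : Edge α v g c) :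
    norm g ≤ v.length * K := by
  obtain ⟨s, r, rfl, rfl⟩ := he
  exact (h.gw_le (over_append.1 hv).1).trans (Nat.mul_le_mul_right _ (by simp))

theorem merge_pt (α : Z → List (X × Bool)) (Bs : List (List (Z × Bool))) (D T : ℕ)
    (hB : ∀ u ∈ Bs, norm (gw α u) ≤ D) (hend : norm (gw α Bs.flatten) ≤ T) :
    (∀ L R, Bs = L ++ R → norm (gw α L.flatten) ≤ T) ∨
    ∃ L1 u u' L2, Bs = L1 ++ u :: u' :: L2 ∧ norm (gw α (u ++ u')) ≤ D ∧
      T < norm (gw α (L1.flatten ++ u)) := by
  obtain ⟨i, -, hi⟩ := Finset.exists_max_image (Finset.range (Bs.length + 1))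
    (fun i => norm (gw α (Bs.take i).flatten)) ⟨0, by simp⟩
  have hmax : ∀ L R, Bs = L ++ R → norm (gw α L.flatten) ≤ norm (gw α (Bs.take i).flatten) := by
    intro L R h
    have := hi L.length (by simp [h])
    rwa [h, List.take_left' rfl, ← h] at this
  by_cases hT : norm (gw α (Bs.take i).flatten) ≤ T
  · exact Or.inl fun L R h => (hmax L R h).trans hT
  right
  have hsplit : Bs = Bs.take i ++ Bs.drop i := (List.take_append_drop i Bs).symm
  generalize Bs.take i = L at hmax hT hsplit
  generalize Bs.drop i = R at hsplit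
  rcases List.eq_nil_or_concat L with rfl | ⟨L1, u, rfl⟩
  · exact absurd (by simp [gw_nil]) hT
  rw [List.concat_eq_append] at hmax hT hsplit
  cases R with
  | nil => exact absurd (by rw [List.append_nil] at hsplit; rw [← hsplit]; exact hend) hT
  | cons u' L2 =>
    have hs : Bs = L1 ++ u :: u' :: L2 := by rw [hsplit]; simp
    have e1 : (L1 ++ [u]).flatten = L1.flatten ++ u := by simp
    rw [e1] at hmax hT
    refine ⟨L1, u, u', L2, hs, ?_, not_le.1 hT⟩
    have h1 := hmax L1 _ hs
    have h2 := hmax (L1 ++ [u, u']) L2 (by rw [hs]; simp)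
    have e2 : (L1 ++ [u, u']).flatten = L1.flatten ++ u ++ u' := by simp
    rw [e2] at h2
    have := rips (gw α L1.flatten) (gw α (L1.flatten ++ u)) (gw α (L1.flatten ++ u ++ u')) D h1 h2
      (by rw [gw_append, inv_mul_cancel_left]; exact hB u (by simp [hs]))
      (by rw [gw_append α (L1.flatten ++ u), inv_mul_cancel_left]; exact hB u' (by simp [hs]))
    rwa [List.append_assoc, gw_append, inv_mul_cancel_left] at this

/-- A block: a short word that names a short element. -/
def Blk (P : List Z) (α : Z → List (X × Bool)) (K m : ℕ) (u : List (Z × Bool)) : Prop :=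
  Over P u ∧ u.length ≤ m ∧ norm (gw α u) ≤ 2 * K

theorem blk_merge {P : List Z} {α β : Z → List (X × Bool)} {K m : ℕ} (h1 : C1 P α β K m)
    {L1 L2 : List (List (Z × Bool))} {u u' : List (Z × Bool)}
    (hB : ∀ x ∈ L1 ++ u :: u' :: L2, Blk P α K m x) (hn : norm (gw α (u ++ u')) ≤ 2 * K) :
    ∃ w, (∀ x ∈ L1 ++ w :: L2, Blk P α K m x) ∧ gw α w = gw α (u ++ u') ∧
      gw β w = gw β (u ++ u') := by
  have a := hB u (by simp)
  have b := hB u' (by simp)
  obtain ⟨w, w1, w2, w3, w4⟩ := h1 (u ++ u') (over_append.2 ⟨a.1, b.1⟩)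
    (by have := a.2.1; have := b.2.1; rw [List.length_append]; omega) hn
  refine ⟨w, fun x hx => ?_, w3, w4⟩
  rcases List.mem_append.1 hx with hx | hx
  · exact hB x (by simp [hx])
  rcases List.mem_cons.1 hx with rfl | hx
  · exact ⟨w1, w2, by rw [w3]; exact hn⟩
  · exact hB x (by simp [hx])

theorem blk_letters {P : List Z} {α : Z → List (X × Bool)} {K m : ℕ} (h0 : C0 P α K)
    (hm : 1 ≤ m) {v : List (Z × Bool)} (hv : Over P v) :
    ∃ Bs : List (List (Z × Bool)), (∀ x ∈ Bs, Blk P α K m x) ∧ Bs.flatten = v := by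
  refine ⟨v.map fun c => [c], fun x hx => ?_, ?_⟩
  · obtain ⟨c, hc, rfl⟩ := List.mem_map.1 hx
    have h := over_single.2 (hv c hc)
    have := h0.gw_le h
    exact ⟨h, hm, by simp at this; omega⟩
  · induction v with
    | nil => rfl
    | cons c v ih => simp [ih fun d hd => hv d (by simp [hd])]

theorem short_blk {P : List Z} {α β : Z → List (X × Bool)} {K m : ℕ} (h1 : C1 P α β K m)
    (n : ℕ) : ∀ Bs : List (List (Z × Bool)), Bs.length ≤ n → (∀ x ∈ Bs, Blk P α K m x) →
    norm (gw α Bs.flatten) ≤ 2 * K → ∃ u, Over P u ∧ u.length ≤ m ∧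
      gw α u = gw α Bs.flatten ∧ gw β u = gw β Bs.flatten := by
  induction n with
  | zero =>
    intro Bs hn _ _
    obtain rfl : Bs = [] := List.length_eq_zero_iff.1 (by omega)
    exact ⟨[], Over.nil P, by simp, rfl, rfl⟩
  | succ n ih =>
    intro Bs hn hB hend
    have step : ∀ L1 u u' L2, Bs = L1 ++ u :: u' :: L2 → norm (gw α (u ++ u')) ≤ 2 * K →
        ∃ u, Over P u ∧ u.length ≤ m ∧ gw α u = gw α Bs.flatten ∧ gw β u = gw β Bs.flatten := by
      rintro L1 u u' L2 rfl hk
      obtain ⟨w, w1, w2, w3⟩ := blk_merge h1 hB hk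
      have ea : gw α (L1 ++ w :: L2).flatten = gw α (L1 ++ u :: u' :: L2).flatten := by
        simp only [List.flatten_append, List.flatten_cons, gw_append, w2, mul_assoc]
      have eb : gw β (L1 ++ w :: L2).flatten = gw β (L1 ++ u :: u' :: L2).flatten := by
        simp only [List.flatten_append, List.flatten_cons, gw_append, w3, mul_assoc]
      rw [← ea, ← eb]
      exact ih _ (by simp at hn ⊢; omega) w1 (by rw [ea]; exact hend)
    rcases merge_pt α Bs (2 * K) (2 * K) (fun u hu => (hB u hu).2.2) hend with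
      h | ⟨L1, u, u', L2, hs, hk, -⟩
    · match Bs, hB, h, step with
      | [], _, _, _ => exact ⟨[], Over.nil P, by simp, rfl, rfl⟩
      | [u], hB, _, _ =>
        exact ⟨u, (hB u (by simp)).1, (hB u (by simp)).2.1, by simp, by simp⟩
      | u :: u' :: L2, _, h, step =>
        exact step [] u u' L2 rfl (by simpa using h [u, u'] L2 rfl)
    · exact step L1 u u' L2 hs hk

theorem short_word {P : List Z} {α β : Z → List (X × Bool)} {K m : ℕ} (h0 : C0 P α K)
    (hm : 1 ≤ m) (h1 : C1 P α β K m) {v : List (Z × Bool)} (hv : Over P v)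
    (hn : norm (gw α v) ≤ 2 * K) :
    ∃ u, Over P u ∧ u.length ≤ m ∧ gw α u = gw α v ∧ gw β u = gw β v := by
  obtain ⟨Bs, hB, rfl⟩ := blk_letters h0 hm hv
  exact short_blk h1 _ Bs le_rfl hB hn

theorem group_ker {P : List Z} {α β : Z → List (X × Bool)} {K m : ℕ} (h0 : C0 P α K)
    (hm : 1 ≤ m) (h1 : C1 P α β K m) (h2 : C2 P α β m) {v v' : List (Z × Bool)} (hv : Over P v)
    (hv' : Over P v') (h : gw α v = gw α v') : gw β v = gw β v' := by
  have e : gw α (invRev v ++ v') = 1 := by rw [gw_append, gw_invRev, h, inv_mul_cancel]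
  obtain ⟨u, u1, u2, u3, u4⟩ := short_word h0 hm h1 (over_append.2 ⟨hv.invRev, hv'⟩)
    (by rw [e]; simp)
  have := h2 u u1 u2 (u3.trans e)
  rw [u4, gw_append, gw_invRev] at this
  exact inv_mul_eq_one.1 this

theorem ins_of_splits {P : List Z} {α : Z → List (X × Bool)} {K m T : ℕ} (h0 : C0 P α K)
    (Bs : List (List (Z × Bool))) (hB : ∀ x ∈ Bs, Blk P α K m x) (a : FreeGroup X)
    (h : ∀ L R, Bs = L ++ R → norm (a * gw α L.flatten) ≤ T) :
    ∀ g ∈ PS (flat α Bs.flatten), norm (a * g) ≤ T + m * K := by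
  induction Bs generalizing a with
  | nil =>
    intro g hg
    obtain rfl : g = 1 := mem_PS_nil.1 hg
    exact (h [] [] rfl).trans (Nat.le_add_right _ _)
  | cons u Bs ih =>
    intro g hg
    rw [List.flatten_cons, flat_append, mem_PS_append] at hg
    rcases hg with hg | ⟨t, ht, rfl⟩
    · have b := hB u (by simp)
      have h1 : norm g ≤ m * K :=
        (norm_le_of_mem_PS hg).trans ((h0.flat_le b.1).trans (Nat.mul_le_mul_right _ b.2.1))
      have h2 : norm a ≤ T := by simpa [gw_nil] using h [] _ rfl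
      exact (FreeGroup.norm_mul_le _ _).trans (Nat.add_le_add h2 h1)
    · rw [← mul_assoc]
      refine ih (fun x hx => hB x (by simp [hx])) _ (fun L R hs => ?_) t ht
      have := h (u :: L) R (by rw [hs]; rfl)
      rwa [List.flatten_cons, gw_append, ← mul_assoc] at this

theorem over_flatten {P : List Z} {α : Z → List (X × Bool)} {K m : ℕ}
    {Bs : List (List (Z × Bool))} (hB : ∀ x ∈ Bs, Blk P α K m x) : Over P Bs.flatten := by
  intro c hc
  obtain ⟨x, hx, hc⟩ := List.mem_flatten.1 hc
  exact (hB x hx).1 c hc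

/-- A closed walk can be pulled into a ball without changing the edges near the origin. -/
theorem pull_blk {P : List Z} {α β : Z → List (X × Bool)} {K m : ℕ} (h0 : C0 P α K)
    (h1 : C1 P α β K m) (R n : ℕ) : ∀ Bs : List (List (Z × Bool)), Bs.length ≤ n →
    (∀ x ∈ Bs, Blk P α K m x) → gw α Bs.flatten = 1 →
    ∃ v', Over P v' ∧ Ins α (R + 2 * m * K + 2 * K + m * K) v' ∧
      ∀ (h : FreeGroup X) c, norm h ≤ R → (Edge α v' h c ↔ Edge α Bs.flatten h c) := by
  induction n with
  | zero =>
    intro Bs hn _ _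
    obtain rfl : Bs = [] := List.length_eq_zero_iff.1 (by omega)
    refine ⟨[], Over.nil P, fun g hg => ?_, fun _ _ _ => Iff.rfl⟩
    obtain rfl : g = 1 := mem_PS_nil.1 hg
    simp
  | succ n ih =>
    intro Bs hn hB hend
    rcases merge_pt α Bs (2 * K) (R + 2 * m * K + 2 * K) (fun u hu => (hB u hu).2.2)
      (by rw [hend]; simp) with h | ⟨L1, u, u', L2, rfl, hk, hT⟩
    · refine ⟨Bs.flatten, over_flatten hB, fun g hg => ?_, fun _ _ _ => Iff.rfl⟩
      have := ins_of_splits h0 Bs hB 1 (by simpa using h) g hg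
      rwa [one_mul] at this
    · obtain ⟨w, w1, w2, -⟩ := blk_merge h1 hB hk
      have ea : gw α (L1 ++ w :: L2).flatten = gw α (L1 ++ u :: u' :: L2).flatten := by
        simp only [List.flatten_append, List.flatten_cons, gw_append, w2, mul_assoc]
      obtain ⟨v', v1, v2, v3⟩ := ih (L1 ++ w :: L2) (by simp at hn ⊢; omega) w1 (ea.trans hend)
      refine ⟨v', v1, v2, fun h c hh => (v3 h c hh).trans ?_⟩
      have a := hB u (by simp)
      have b := hB u' (by simp)
      have d := w1 w (by simp)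
      have hfar : R + 2 * m * K < norm (gw α L1.flatten) := by
        have := FreeGroup.norm_mul_le (gw α L1.flatten) (gw α u)
        rw [← gw_append] at this
        have := a.2.2
        omega
      have far : ∀ x, Over P x → x.length ≤ 2 * m → ∀ h', Edge α x h' c →
          h ≠ gw α L1.flatten * h' := by
        intro x hx hl h' he heq
        have k1 := (h0.edge_le hx he).trans (Nat.mul_le_mul_right K hl)
        have k2 := norm_le_add (gw α L1.flatten) h'
        rw [← heq] at k2
        omega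
      have e1 : (L1 ++ w :: L2).flatten = L1.flatten ++ (w ++ L2.flatten) := by simp
      have e2 : (L1 ++ u :: u' :: L2).flatten = L1.flatten ++ ((u ++ u') ++ L2.flatten) := by simp
      rw [e1, e2, edge_append, edge_append (x := L1.flatten)]
      refine or_congr Iff.rfl ⟨?_, ?_⟩
      · rintro ⟨h', he, hq⟩
        rcases edge_append.1 he with he1 | ⟨h'', he2, rfl⟩
        · exact absurd hq (far w d.1 (by have := d.2.1; omega) h' he1)
        · exact ⟨_, edge_append.2 (Or.inr ⟨h'', he2, rfl⟩), by rw [← w2]; exact hq⟩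
      · rintro ⟨h', he, hq⟩
        rcases edge_append.1 he with he1 | ⟨h'', he2, rfl⟩
        · exact absurd hq (far _ (over_append.2 ⟨a.1, b.1⟩)
            (by have := a.2.1; have := b.2.1; rw [List.length_append]; omega) h' he1)
        · exact ⟨_, edge_append.2 (Or.inr ⟨h'', he2, rfl⟩), by rw [w2]; exact hq⟩

theorem short_ins {P : List Z} {α β : Z → List (X × Bool)} {R M : ℕ} (h3 : C3 P α β R M)
    (v : List (Z × Bool)) (hv : Over P v) (hi : Ins α R v) : ∃ v', Over P v' ∧ v'.length ≤ M ∧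
    mu (flat α v') = mu (flat α v) ∧ mu (flat β v') = mu (flat β v) := by
  induction v using List.reverseRecOn with
  | nil => exact ⟨[], Over.nil P, by simp, rfl, rfl⟩
  | append_singleton v c ih =>
    obtain ⟨a, b⟩ := over_append.1 hv
    obtain ⟨w, w1, w2, w3, w4⟩ := ih a fun g hg => hi g (by
      rw [flat_append, mem_PS_append]; exact Or.inl hg)
    have ea : mu (flat α (w ++ [c])) = mu (flat α (v ++ [c])) := by
      rw [flat_append, flat_append, mu_append, mu_append, w3]
    have eb : mu (flat β (w ++ [c])) = mu (flat β (v ++ [c])) := by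
      rw [flat_append, flat_append, mu_append, mu_append, w4]
    rw [← ea, ← eb]
    refine h3 _ (over_append.2 ⟨w1, b⟩) (by simp; omega) fun g hg => hi g ?_
    have : PS (flat α (w ++ [c])) = PS (flat α (v ++ [c])) := congrArg Prod.fst ea
    rwa [← this]

omit [DecidableEq X] in
theorem PS_loop (α : Z → List (X × Bool)) (v : List (Z × Bool)) :
    PS (flat α (v ++ invRev v)) = PS (flat α v) := by
  rw [flat_append, flat_invRev, PS_append, PS_invRev, smul_inv_smul, Set.union_self]

/-- The certificate in one direction. -/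
def Cert (P : List Z) (α β : Z → List (X × Bool)) (K m M : ℕ) : Prop :=
  C0 P α K ∧ C1 P α β K m ∧ C2 P α β m ∧ C3 P α β ((4 * m + 4) * K) M ∧ C4 P α β M

theorem cover_of_cert {P : List Z} {α β : Z → List (X × Bool)} {K m M : ℕ} (hm : 1 ≤ m)
    (h : Cert P α β K m M) (h' : Cert P β α K m M) {c : Z × Bool} (hc : c.1 ∈ P)
    {v : List (Z × Bool)} (hv : Over P v) (hs : PS (wd α c) ⊆ PS (flat α v)) :
    PS (wd β c) ⊆ PS (flat β v) := by
  obtain ⟨h0, h1, h2, h3, h4⟩ := h
  have hvv : Over P (v ++ invRev v) := over_append.2 ⟨hv, hv.invRev⟩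
  rw [← PS_loop] at hs ⊢
  have hone : gw α (v ++ invRev v) = 1 := by rw [gw_append, gw_invRev, mul_inv_cancel]
  generalize v ++ invRev v = x at hs hvv hone
  obtain ⟨Bs, hB, rfl⟩ := blk_letters h0 hm hvv
  obtain ⟨v', v1, v2, v3⟩ := pull_blk h0 h1 (m * K + 2 * K) _ Bs le_rfl hB hone
  have eR : m * K + 2 * K + 2 * m * K + 2 * K + m * K = (4 * m + 4) * K := by ring
  rw [eR] at v2
  obtain ⟨w, w1, w2, w3, w4⟩ := short_ins h3 v' v1 v2
  have ea : PS (flat α w) = PS (flat α v') := congrArg Prod.fst w3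
  have eb : PS (flat β w) = PS (flat β v') := congrArg Prod.fst w4
  have k1 : PS (wd α c) ⊆ PS (flat α v') := by
    intro s hsc
    rcases mem_PS_gw.1 (hs hsc) with rfl | ⟨s0, c0, r0, e0, t, ht, e1⟩
    · exact one_mem_PS _
    have hc0 : c0.1 ∈ P := hvv c0 (by simp [e0])
    have n1 := (norm_le_of_mem_PS hsc).trans (h0.wd_le hc)
    have n2 := (norm_le_of_mem_PS ht).trans (h0.wd_le hc0)
    have n3 := norm_le_add (gw α s0) t
    rw [← e1] at n3
    obtain ⟨s1, r1, e2, e3⟩ := (v3 (gw α s0) c0 (by omega)).2 ⟨s0, r0, e0, rfl⟩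
    exact mem_PS_gw.2 (Or.inr ⟨s1, c0, r1, e2, t, ht, by rw [e3, e1]⟩)
  have k2 : PS (wd β c) ⊆ PS (flat β v') := by
    rw [← eb]
    exact h4 c hc w w1 w2 (by rw [ea]; exact k1)
  intro s hsc
  rcases mem_PS_gw.1 (k2 hsc) with rfl | ⟨s0, c0, r0, e0, t, ht, e1⟩
  · exact one_mem_PS _
  have hc0 : c0.1 ∈ P := v1 c0 (by simp [e0])
  have hs0 : Over P s0 := (over_append.1 (e0 ▸ v1)).1
  have n1 := (norm_le_of_mem_PS hsc).trans (h'.1.wd_le hc)
  have n2 := (norm_le_of_mem_PS ht).trans (h'.1.wd_le hc0)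
  have n3 := norm_le_add (gw β s0) t
  rw [← e1] at n3
  obtain ⟨u, u1, u2, -, u4⟩ := short_word h'.1 hm h'.2.1 hs0 (by omega)
  have n4 := (h0.gw_le u1).trans (Nat.mul_le_mul_right K u2)
  rw [u4] at n4
  obtain ⟨s1, r1, e2, e3⟩ := (v3 (gw α s0) c0 (by omega)).1 ⟨s0, r0, e0, rfl⟩
  have hs1 : Over P s1 := (over_append.1 (e2 ▸ hvv)).1
  exact mem_PS_gw.2 (Or.inr ⟨s1, c0, r1, e2, t, ht, by
    rw [group_ker h0 hm h1 h2 hs1 hs0 e3, e1]⟩)

omit [DecidableEq X] in
theorem PS_le_of_cover {P : List Z} {α β : Z → List (X × Bool)}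
    (h : ∀ c : Z × Bool, c.1 ∈ P → ∀ v, Over P v → PS (wd α c) ⊆ PS (flat α v) →
      PS (wd β c) ⊆ PS (flat β v)) {v : List (Z × Bool)} (hv : Over P v)
    (p : List (Z × Bool)) (hp : Over P p) (hs : PS (flat α p) ⊆ PS (flat α v)) :
    PS (flat β p) ⊆ PS (flat β v) := by
  induction p using List.reverseRecOn with
  | nil =>
    intro g hg
    obtain rfl : g = 1 := mem_PS_nil.1 hg
    exact one_mem_PS _
  | append_singleton p c ih =>
    obtain ⟨a, b⟩ := over_append.1 hp
    rw [flat_append, flat_single'] at hs ⊢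
    have ih' := ih a fun g hg => hs (mem_PS_append.2 (Or.inl hg))
    have k := h c (over_single.1 b) (invRev p ++ v) (over_append.2 ⟨a.invRev, hv⟩) (by
      intro t ht
      rw [flat_append, flat_invRev, mem_PS_append]
      refine Or.inr ⟨_, hs (mem_PS_append.2 (Or.inr ⟨t, ht, rfl⟩)), ?_⟩
      rw [← inv_mk, inv_mul_cancel_left])
    intro g hg
    rcases mem_PS_append.1 hg with hg | ⟨t, ht, rfl⟩
    · exact ih' hg
    have := k ht
    rw [flat_append, flat_invRev, mem_PS_append] at this
    rcases this with h1 | ⟨t', ht', rfl⟩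
    · exact ih' (mem_PS_invRev.1 h1)
    · rwa [← inv_mk, mul_inv_cancel_left]

theorem kerLe_of_cert {P : List Z} {α β : Z → List (X × Bool)} {K m M : ℕ} (hm : 1 ≤ m)
    (h : Cert P α β K m M) (h' : Cert P β α K m M) : KerLe P α β := by
  intro v v' hv hv' _ _ he
  have e1 : PS (flat α v) = PS (flat α v') := congrArg Prod.fst he
  have e2 : gw α v = gw α v' := congrArg Prod.snd he
  have k := fun (c : Z × Bool) (hc : c.1 ∈ P) (v : List (Z × Bool)) (hv : Over P v) =>
    cover_of_cert hm h h' hc hv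
  exact Prod.ext (Set.Subset.antisymm (PS_le_of_cover k hv' v hv e1.le)
    (PS_le_of_cover k hv v' hv' e1.ge)) (group_ker h.1 hm h.2.1 h.2.2.1 hv hv' e2)

end Pool.Agent.P.MP_ab6a8b_al
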