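import Mathlib
import Pool.Agent.P.MP_ab6a8b_al.IsoKer

/-! Existence of certificates, and reduction of isomorphism to equality of kernels. -/

set_option autoImplicit false

namespace Pool.Agent.P.MP_ab6a8b_al

open FreeGroup hiding map_mul map_one map_inv
open Pointwise Pool.Agent.Lib.PrimrecProp

variable {X Z : Type}

theorem KerLe.gw_one {P : List Z} {α β : Z → List (X × Bool)} (h : KerLe P α β)
    {u : List (Z × Bool)} (hu : Over P u) (h1 : gw α u = 1) : gw β u = 1 := by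
  by_cases e : u = []
  · rw [e]; rfl
  have k : mu (flat α (u ++ u)) = mu (flat α u) := by
    rw [flat_append, mu_append]
    have : (mu (flat α u)).2 = 1 := h1
    generalize mu (flat α u) = x at this
    obtain ⟨S, g⟩ := x
    obtain rfl : g = 1 := this
    simp [mmul]
  have k2 : gw β (u ++ u) = gw β u :=
    congrArg Prod.snd (h _ _ (over_append.2 ⟨hu, hu⟩) hu (by simp [e]) e k)
  rw [gw_append] at k2
  exact mul_eq_left.1 k2

theorem KerLe.gw_eq {P : List Z} {α β : Z → List (X × Bool)} (h : KerLe P α β)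
    {u u' : List (Z × Bool)} (hu : Over P u) (hu' : Over P u') (h1 : gw α u = gw α u') :
    gw β u = gw β u' := by
  have := h.gw_one (over_append.2 ⟨hu.invRev, hu'⟩)
    (by rw [gw_append, gw_invRev, h1, inv_mul_cancel])
  rw [gw_append, gw_invRev] at this
  exact inv_mul_eq_one.1 this

theorem wd_ne_nil {P : List Z} {α : Z → List (X × Bool)} (hne : ∀ z ∈ P, α z ≠ [])
    {c : Z × Bool} (hc : c.1 ∈ P) : wd α c ≠ [] := by
  obtain ⟨z, b⟩ := c
  cases b
  · exact invRev_ne_nil (hne z hc)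
  · exact hne z hc

theorem KerLe.c4 {P : List Z} {α β : Z → List (X × Bool)} (h : KerLe P α β)
    (hne : ∀ z ∈ P, α z ≠ []) (M : ℕ) : C4 P α β M := by
  intro c hc v hv _ hs
  have e : v ≠ [] := by
    rintro rfl
    obtain ⟨x, r, hx⟩ := List.exists_cons_of_ne_nil (wd_ne_nil hne hc)
    exact mk_singleton_ne_one x (mem_PS_nil.1 (hs (mem_PS.2 ⟨[x], r, hx, rfl⟩)))
  have ho : Over P (([c] ++ invRev [c]) ++ v) :=
    over_append.2 ⟨over_append.2 ⟨over_single.2 hc, (over_single.2 hc).invRev⟩, hv⟩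
  have g1 : gw α ([c] ++ invRev [c]) = 1 := by rw [gw_append, gw_invRev, mul_inv_cancel]
  have k : mu (flat α (([c] ++ invRev [c]) ++ v)) = mu (flat α v) := by
    refine Prod.ext ?_ ?_
    · change PS _ = PS _
      rw [flat_append, PS_append, PS_loop, flat_single']
      have : FreeGroup.mk (flat α ([c] ++ invRev [c])) = 1 := g1
      rw [this, one_smul]
      exact Set.union_eq_right.2 hs
    · change gw α _ = gw α _
      rw [gw_append, g1, one_mul]
  have k2 : PS (flat β (([c] ++ invRev [c]) ++ v)) = PS (flat β v) :=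
    congrArg Prod.fst (h _ _ ho hv (by simp) e k)
  rw [← k2, flat_append, PS_append, PS_loop, flat_single']
  exact Set.subset_union_left

theorem letters_flat {P : List Z} (α : Z → List (X × Bool)) {v : List (Z × Bool)}
    (hv : Over P v) : ∀ x ∈ flat α v, x ∈ P.flatMap fun z => α z ++ invRev (α z) := by
  intro x hx
  obtain ⟨⟨z, b⟩, hc, hx⟩ := List.mem_flatMap.1 hx
  refine List.mem_flatMap.2 ⟨z, hv _ hc, ?_⟩
  cases b
  · exact List.mem_append_right _ hx
  · exact List.mem_append_left _ hx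

theorem KerLe.c1 [DecidableEq X] {P : List Z} {α β : Z → List (X × Bool)} (h : KerLe P α β)
    (K : ℕ) : ∃ m0, ∀ m ≥ m0, C1 P α β K m := by
  obtain ⟨M, hM⟩ := exists_bound (gw α) (fun v => Over P v ∧ norm (gw α v) ≤ 2 * K)
    ((finite_ball (P.flatMap fun z => α z ++ invRev (α z)) (2 * K)).subset (by
      rintro g ⟨v, ⟨h1, h2⟩, rfl⟩
      exact ⟨⟨_, letters_flat α h1, rfl⟩, h2⟩))
  refine ⟨M, fun m hm u hu _ hn => ?_⟩
  obtain ⟨u', ⟨a, -⟩, b, c⟩ := hM u ⟨hu, hn⟩
  exact ⟨u', a, b.trans hm, c, h.gw_eq a hu c⟩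

theorem KerLe.c3 [DecidableEq X] {P : List Z} {α β : Z → List (X × Bool)} (h : KerLe P α β)
    (R : ℕ) : ∃ M0, ∀ M ≥ M0, C3 P α β R M := by
  have hf := finite_ball (P.flatMap fun z => α z ++ invRev (α z)) R
  obtain ⟨M0, hM⟩ := exists_bound (fun v => mu (flat α v))
    (fun v => Over P v ∧ Ins α R v ∧ v ≠ []) ((hf.finite_subsets.prod hf).subset (by
      rintro g ⟨v, ⟨h1, h2, -⟩, rfl⟩
      have k : PS (flat α v) ⊆ {g : FreeGroup X | (∃ w : List (X × Bool),
            (∀ x ∈ w, x ∈ P.flatMap fun z => α z ++ invRev (α z)) ∧ g = FreeGroup.mk w) ∧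
            norm g ≤ R} := fun g hg => by
        obtain ⟨s, r, e, rfl⟩ := mem_PS.1 hg
        exact ⟨⟨s, fun x hx => letters_flat α h1 x (by rw [e]; simp [hx]), rfl⟩, h2 _ hg⟩
      exact ⟨k, k (mk_mem_PS _)⟩))
  refine ⟨M0, fun M hM' v hv _ hi => ?_⟩
  by_cases e : v = []
  · exact ⟨[], Over.nil P, by simp, by rw [e], by rw [e]⟩
  obtain ⟨v', ⟨a, -, a'⟩, b, c⟩ := hM v ⟨hv, hi, e⟩
  exact ⟨v', a, b.trans hM', c, h _ _ a hv a' e c⟩

theorem exists_c0 (P : List Z) (α : Z → List (X × Bool)) : ∃ K0, ∀ K ≥ K0, C0 P α K := by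
  obtain ⟨K0, h⟩ := (P.finite_toSet.image fun z => (α z).length).bddAbove
  exact ⟨K0, fun K hK z hz => (h ⟨z, hz, rfl⟩).trans hK⟩

theorem kerEq_iff_cert [DecidableEq X] {P : List Z} {α β : Z → List (X × Bool)}
    (ha : ∀ z ∈ P, α z ≠ []) (hb : ∀ z ∈ P, β z ≠ []) :
    (KerLe P α β ∧ KerLe P β α) ↔
      ∃ K m M, 1 ≤ m ∧ Cert P α β K m M ∧ Cert P β α K m M := by
  constructor
  · rintro ⟨h, h'⟩
    obtain ⟨K1, a1⟩ := exists_c0 P α
    obtain ⟨K2, a2⟩ := exists_c0 P β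
    obtain ⟨m1, b1⟩ := h.c1 (K1 + K2)
    obtain ⟨m2, b2⟩ := h'.c1 (K1 + K2)
    obtain ⟨M1, c1⟩ := h.c3 ((4 * (m1 + m2 + 1) + 4) * (K1 + K2))
    obtain ⟨M2, c2⟩ := h'.c3 ((4 * (m1 + m2 + 1) + 4) * (K1 + K2))
    exact ⟨K1 + K2, m1 + m2 + 1, M1 + M2, by omega,
      ⟨a1 _ (by omega), b1 _ (by omega), fun u hu _ => h.gw_one hu, c1 _ (by omega), h.c4 ha _⟩,
      ⟨a2 _ (by omega), b2 _ (by omega), fun u hu _ => h'.gw_one hu, c2 _ (by omega),
        h'.c4 hb _⟩⟩
  · rintro ⟨K, m, M, hm, h, h'⟩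
    exact ⟨kerLe_of_cert hm h h', kerLe_of_cert hm h' h⟩

/-- The bound on the number of left divisors. -/
def nb (n : ℕ) : ℕ := 2 ^ (n + 1) * (n + 1)

theorem nb_mono {n n' : ℕ} (h : n ≤ n') : nb n ≤ nb n' :=
  Nat.mul_le_mul (Nat.pow_le_pow_right (by norm_num) (by omega)) (by omega)

theorem short_rep {P : List Z} (q : List (Z × Bool) → Set (FreeGroup X) × FreeGroup X)
    (h1 : ∀ s r, Over P s → Over P r → s ≠ [] → r ≠ [] → q (s ++ r) = mmul (q s) (q r))
    (h2 : ∀ s, Over P s → s ≠ [] → (q s).2 ∈ (q s).1) (a : List (X × Bool)) (n : ℕ) :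
    ∀ v, v.length ≤ n → Over P v → v ≠ [] → q v = mu a →
      ∃ v', Over P v' ∧ v' ≠ [] ∧ v'.length ≤ nb a.length ∧ q v' = mu a := by
  classical
  induction n with
  | zero =>
    intro v hn _ hv _
    exact absurd (List.length_eq_zero_iff.1 (by omega)) hv
  | succ n ih =>
    intro v hn ho hv hq
    by_cases hl : v.length ≤ nb a.length
    · exact ⟨v, ho, hv, hl, hq⟩
    set F : Finset (FreeGroup X) :=
      (Finset.range (a.length + 1)).image fun i => FreeGroup.mk (a.take i) with hF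
    have hFc : F.card ≤ a.length + 1 := Finset.card_image_le.trans (by simp)
    have ot : ∀ i, Over P (v.take i) := fun i c hc => ho c (List.mem_of_mem_take hc)
    have od : ∀ i, Over P (v.drop i) := fun i c hc => ho c (List.mem_of_mem_drop hc)
    have tn : ∀ i, 1 ≤ i → v.take i ≠ [] := by
      intro i hi h
      rcases List.take_eq_nil_iff.1 h with h | h
      · omega
      · exact hv h
    have sub : ∀ i, 1 ≤ i → ∀ g ∈ (q (v.take i)).1, g ∈ F := by
      intro i hi g hg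
      have : g ∈ PS a := by
        have e : (q v).1 = PS a := congrArg Prod.fst hq
        rw [← e]
        by_cases hd : v.drop i = []
        · have : v.take i = v := by
            conv_rhs => rw [← List.take_append_drop i v, hd, List.append_nil]
          rwa [this] at hg
        · rw [← List.take_append_drop i v, h1 _ _ (ot i) (od i) (tn i hi) hd]
          exact Or.inl hg
      obtain ⟨j, hj, rfl⟩ := mem_PS'.1 this
      exact Finset.mem_image.2 ⟨j, Finset.mem_range.2 (by omega), rfl⟩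
    have hcard : (F.powerset ×ˢ F).card < (Finset.Icc 1 v.length).card := by
      rw [Finset.card_product, Finset.card_powerset, Nat.card_Icc]
      have : 2 ^ F.card * F.card ≤ nb a.length :=
        Nat.mul_le_mul (Nat.pow_le_pow_right (by norm_num) hFc) hFc
      omega
    obtain ⟨i, hi, j, hj, hij, he⟩ := Finset.exists_ne_map_eq_of_card_lt_of_maps_to hcard
      (f := fun i => (F.filter fun g => g ∈ (q (v.take i)).1, (q (v.take i)).2)) (by
        intro i hi
        have hi1 := (Finset.mem_Icc.1 (Finset.mem_coe.1 hi)).1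
        exact Finset.mem_coe.2 (Finset.mem_product.2
          ⟨Finset.mem_powerset.2 (Finset.filter_subset _ _),
            sub i hi1 _ (h2 _ (ot i) (tn i hi1))⟩))
    wlog hlt : i < j generalizing i j
    · exact this j hj i hi hij.symm he.symm (by omega)
    obtain ⟨hi1, hi2⟩ := Finset.mem_Icc.1 hi
    obtain ⟨hj1, hj2⟩ := Finset.mem_Icc.1 hj
    have heq : q (v.take i) = q (v.take j) := by
      obtain ⟨e1, e2⟩ := Prod.mk.inj he
      refine Prod.ext ?_ e2
      ext g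
      have := Finset.ext_iff.1 e1 g
      simp only [Finset.mem_filter] at this
      exact ⟨fun h => (this.1 ⟨sub i hi1 g h, h⟩).2, fun h => (this.2 ⟨sub j hj1 g h, h⟩).2⟩
    refine ih (v.take i ++ v.drop j) (by simp; omega) (over_append.2 ⟨ot i, od j⟩)
      (by simp [tn i hi1]) ?_
    rw [← hq]
    by_cases hd : v.drop j = []
    · have : v.take j = v := by
        conv_rhs => rw [← List.take_append_drop j v, hd, List.append_nil]
      rw [hd, List.append_nil, heq, this]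
    · rw [h1 _ _ (ot i) (od j) (tn i hi1) hd, heq, ← h1 _ _ (ot j) (od j) (tn j hj1) hd,
        List.take_append_drop]

theorem mu_flat_mem {P : List Z} {α : Z → List (X × Bool)}
    {T : Set (Set (FreeGroup X) × FreeGroup X)} (h1 : ∀ z ∈ P, mu (α z) ∈ T)
    (h2 : ∀ x ∈ T, ∀ y ∈ T, mmul x y ∈ T) (h3 : ∀ x ∈ T, minv x ∈ T) (v : List (Z × Bool))
    (hv : Over P v) (hn : v ≠ []) : mu (flat α v) ∈ T := by
  have one : ∀ c : Z × Bool, c.1 ∈ P → mu (wd α c) ∈ T := by
    rintro ⟨z, b⟩ hc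
    cases b
    · exact mu_invRev (α z) ▸ h3 _ (h1 z hc)
    · exact h1 z hc
  induction v with
  | nil => exact absurd rfl hn
  | cons c v ih =>
    by_cases e : v = []
    · rw [e, flat_single']; exact one c (hv c (by simp))
    · rw [flat_cons, mu_append]
      exact h2 _ (one c (hv c (by simp))) _ (ih (fun d hd => hv d (by simp [hd])) e)

theorem GenS.gen {A : List (List (X × Bool))} {a : List (X × Bool)} (h : a ∈ A) :
    mu a ∈ GenS A := fun _ h1 _ _ => h1 a h

theorem GenS.mul {A : List (List (X × Bool))} {x y : Set (FreeGroup X) × FreeGroup X}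
    (hx : x ∈ GenS A) (hy : y ∈ GenS A) : mmul x y ∈ GenS A :=
  fun T h1 h2 h3 => h2 _ (hx T h1 h2 h3) _ (hy T h1 h2 h3)

theorem GenS.inv {A : List (List (X × Bool))} {x : Set (FreeGroup X) × FreeGroup X}
    (hx : x ∈ GenS A) : minv x ∈ GenS A := fun T h1 h2 h3 => h3 _ (hx T h1 h2 h3)

theorem exists_word {P : List Z} {α : Z → List (X × Bool)} {A : List (List (X × Bool))}
    (h : ∀ a ∈ A, ∃ v, Over P v ∧ v ≠ [] ∧ mu (flat α v) = mu a)
    {x : Set (FreeGroup X) × FreeGroup X} (hx : x ∈ GenS A) :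
    ∃ v, Over P v ∧ v ≠ [] ∧ mu (flat α v) = x := by
  refine hx {x | ∃ v, Over P v ∧ v ≠ [] ∧ mu (flat α v) = x} h ?_ ?_
  · rintro _ ⟨u, u1, u2, rfl⟩ _ ⟨v, v1, -, rfl⟩
    exact ⟨u ++ v, over_append.2 ⟨u1, v1⟩, by simp [u2], by rw [flat_append, mu_append]⟩
  · rintro _ ⟨u, u1, u2, rfl⟩
    exact ⟨invRev u, u1.invRev, invRev_ne_nil u2, by rw [flat_invRev, mu_invRev]⟩

theorem exists_word_id {A : List (List (X × Bool))} {x : Set (FreeGroup X) × FreeGroup X}
    (hx : x ∈ GenS A) : ∃ v, Over A v ∧ v ≠ [] ∧ mu (flat id v) = x :=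
  exists_word (fun a ha => ⟨[(a, true)], over_single.2 ha, by simp, by simp [wd]⟩) hx

theorem flat_id_mem {A : List (List (X × Bool))} {v : List (List (X × Bool) × Bool)}
    (hv : Over A v) (hn : v ≠ []) : mu (flat id v) ∈ GenS A :=
  mu_flat_mem (fun _ hz => GenS.gen hz) (fun _ hx _ hy => GenS.mul hx hy)
    (fun _ hx => GenS.inv hx) v hv hn

/-- Isomorphism of the generated inverse subsemigroups. -/
def IsoGen (A B : List (List (X × Bool))) : Prop :=
  ∃ φ : Set (FreeGroup X) × FreeGroup X → Set (FreeGroup X) × FreeGroup X,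
    Set.BijOn φ (GenS A) (GenS B) ∧
      ∀ x ∈ GenS A, ∀ y ∈ GenS A, φ (mmul x y) = mmul (φ x) (φ y)

/-- A finite table of images of generators. -/
def Table (A B : List (List (X × Bool))) (N : ℕ)
    (P : List (List (X × Bool) × List (X × Bool))) : Prop :=
  P.length ≤ A.length ∧
  (∀ z ∈ P, z.1 ∈ A ∧ ∃ v, Over B v ∧ v ≠ [] ∧ v.length ≤ N ∧ z.2 = flat id v) ∧
  (∀ a ∈ A, ∃ z ∈ P, z.1 = a) ∧
  ∀ b ∈ B, ∃ v, Over P v ∧ v ≠ [] ∧ v.length ≤ nb b.length ∧ mu (flat Prod.snd v) = mu b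

theorem iso_of_table {A B : List (List (X × Bool))} {N : ℕ}
    {P : List (List (X × Bool) × List (X × Bool))} (ht : Table A B N P)
    (h : KerLe P Prod.fst Prod.snd) (h' : KerLe P Prod.snd Prod.fst) : IsoGen A B := by
  classical
  obtain ⟨-, t1, t2, t3⟩ := ht
  have wa : ∀ x ∈ GenS A, ∃ v, Over P v ∧ v ≠ [] ∧ mu (flat Prod.fst v) = x := fun x hx =>
    exists_word (fun a ha => by
      obtain ⟨z, hz, rfl⟩ := t2 a ha
      exact ⟨[(z, true)], over_single.2 hz, by simp, by simp [wd]⟩) hx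
  have wb : ∀ x ∈ GenS B, ∃ v, Over P v ∧ v ≠ [] ∧ mu (flat Prod.snd v) = x := fun x hx =>
    exists_word (fun b hb => by
      obtain ⟨v, v1, v2, -, v3⟩ := t3 b hb
      exact ⟨v, v1, v2, v3⟩) hx
  have ma : ∀ v, Over P v → v ≠ [] → mu (flat Prod.fst v) ∈ GenS A :=
    mu_flat_mem (fun z hz => GenS.gen (t1 z hz).1) (fun _ hx _ hy => GenS.mul hx hy)
      (fun _ hx => GenS.inv hx)
  have mb : ∀ v, Over P v → v ≠ [] → mu (flat Prod.snd v) ∈ GenS B :=
    mu_flat_mem (fun z hz => by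
      obtain ⟨v, v1, v2, -, v3⟩ := (t1 z hz).2
      rw [v3]; exact flat_id_mem v1 v2) (fun _ hx _ hy => GenS.mul hx hy)
      (fun _ hx => GenS.inv hx)
  let φ : Set (FreeGroup X) × FreeGroup X → Set (FreeGroup X) × FreeGroup X := fun x =>
    if hx : ∃ v, Over P v ∧ v ≠ [] ∧ mu (flat Prod.fst v) = x then
      mu (flat Prod.snd hx.choose) else x
  have key : ∀ v, Over P v → v ≠ [] → φ (mu (flat Prod.fst v)) = mu (flat Prod.snd v) := by
    intro v v1 v2
    have hx : ∃ w, Over P w ∧ w ≠ [] ∧ mu (flat Prod.fst w) = mu (flat Prod.fst v) :=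
      ⟨v, v1, v2, rfl⟩
    have e : φ (mu (flat Prod.fst v)) = mu (flat Prod.snd hx.choose) := dif_pos hx
    rw [e]
    exact h _ _ hx.choose_spec.1 v1 hx.choose_spec.2.1 v2 hx.choose_spec.2.2
  refine ⟨φ, ⟨fun x hx => ?_, fun x hx y hy e => ?_, fun y hy => ?_⟩, fun x hx y hy => ?_⟩
  · obtain ⟨v, v1, v2, rfl⟩ := wa x hx
    rw [key v v1 v2]; exact mb v v1 v2
  · obtain ⟨v, v1, v2, rfl⟩ := wa x hx
    obtain ⟨w, w1, w2, rfl⟩ := wa y hy
    rw [key v v1 v2, key w w1 w2] at e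
    exact h' _ _ v1 w1 v2 w2 e
  · obtain ⟨v, v1, v2, rfl⟩ := wb y hy
    exact ⟨_, ma v v1 v2, key v v1 v2⟩
  · obtain ⟨v, v1, v2, rfl⟩ := wa x hx
    obtain ⟨w, w1, w2, rfl⟩ := wa y hy
    rw [key v v1 v2, key w w1 w2, ← mu_append, ← mu_append, ← flat_append, ← flat_append]
    exact key _ (over_append.2 ⟨v1, w1⟩) (by simp [v2])

theorem table_of_iso {A B : List (List (X × Bool))} {N : ℕ} (hN : ∀ a ∈ A, nb a.length ≤ N)
    (h : IsoGen A B) : ∃ P, Table A B N P ∧ KerLe P Prod.fst Prod.snd ∧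
      KerLe P Prod.snd Prod.fst := by
  classical
  obtain ⟨φ, hb, hm⟩ := h
  have snd_mem : ∀ x ∈ GenS A, x.2 ∈ x.1 := by
    intro x hx
    obtain ⟨v, -, -, rfl⟩ := exists_word_id hx
    exact mk_mem_PS _
  have hψ : ∀ y ∈ GenS B, ∃ x ∈ GenS A, φ x = y := fun y hy => hb.surjOn hy
  choose! ψ ψ1 ψ2 using hψ
  have img : ∀ a ∈ A, ∃ v, Over B v ∧ v ≠ [] ∧ v.length ≤ N ∧ φ (mu a) = mu (flat id v) := by
    intro a ha
    obtain ⟨v, v1, v2, v3⟩ := exists_word_id (hb.mapsTo (GenS.gen ha))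
    obtain ⟨w, w1, w2, w3, w4⟩ := short_rep (P := B) (fun s => ψ (mu (flat id s)))
      (fun s r s1 r1 s2 r2 => by
        have a1 := flat_id_mem s1 s2
        have a2 := flat_id_mem r1 r2
        have a3 := flat_id_mem (over_append.2 ⟨s1, r1⟩) (by simp [s2])
        refine hb.injOn (ψ1 _ a3) (GenS.mul (ψ1 _ a1) (ψ1 _ a2)) ?_
        rw [ψ2 _ a3, hm _ (ψ1 _ a1) _ (ψ1 _ a2), ψ2 _ a1, ψ2 _ a2, flat_append, mu_append])
      (fun s s1 s2 => snd_mem _ (ψ1 _ (flat_id_mem s1 s2))) a _ v le_rfl v1 v2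
      (hb.injOn (ψ1 _ (flat_id_mem v1 v2)) (GenS.gen ha) (by rw [ψ2 _ (flat_id_mem v1 v2), v3]))
    exact ⟨w, w1, w2, w3.trans (hN a ha), by rw [← w4, ψ2 _ (flat_id_mem w1 w2)]⟩
  choose! f f1 f2 f3 f4 using img
  set P := A.map fun a => (a, flat id (f a)) with hP
  have memP : ∀ z ∈ P, z.1 ∈ A ∧ z.2 = flat id (f z.1) := by
    intro z hz
    obtain ⟨a, ha, rfl⟩ := List.mem_map.1 hz
    exact ⟨ha, rfl⟩
  have ma : ∀ v, Over P v → v ≠ [] → mu (flat Prod.fst v) ∈ GenS A :=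
    mu_flat_mem (fun z hz => GenS.gen (memP z hz).1) (fun _ hx _ hy => GenS.mul hx hy)
      (fun _ hx => GenS.inv hx)
  have one : ∀ c : (List (X × Bool) × List (X × Bool)) × Bool, c.1 ∈ P →
      φ (mu (wd Prod.fst c)) = mu (wd Prod.snd c) := by
    rintro ⟨z, b⟩ hc
    obtain ⟨k1, k2⟩ := memP z hc
    have k3 : φ (mu z.1) = mu z.2 := by rw [k2]; exact f4 _ k1
    cases b
    · change φ (mu (invRev z.1)) = mu (invRev z.2)
      have g1 := GenS.gen k1
      have g2 : mu (invRev z.1) ∈ GenS A := mu_invRev z.1 ▸ GenS.inv g1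
      rw [mu_invRev z.2, ← k3]
      refine minv_unique ?_ ?_
      · rw [← hm _ g1 _ g2, ← hm _ (GenS.mul g1 g2) _ g1, mmul_minv_cancel]
      · rw [← hm _ g2 _ g1, ← hm _ (GenS.mul g2 g1) _ g2]
        have := mmul_minv_cancel (invRev z.1)
        rw [invRev_invRev] at this
        rw [this]
    · exact k3
  have key : ∀ v, Over P v → v ≠ [] → φ (mu (flat Prod.fst v)) = mu (flat Prod.snd v) := by
    intro v hv hn
    induction v with
    | nil => exact absurd rfl hn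
    | cons c v ih =>
      have hc := hv c (by simp)
      by_cases e : v = []
      · rw [e, flat_single', flat_single']; exact one c hc
      · have hv' : Over P v := fun d hd => hv d (by simp [hd])
        have m1 := ma [c] (over_single.2 hc) (by simp)
        rw [flat_single'] at m1
        rw [flat_cons, flat_cons, mu_append, mu_append, hm _ m1 _ (ma v hv' e), one c hc,
          ih hv' e]
  have cov : ∀ a ∈ A, ∃ z ∈ P, z.1 = a := fun a ha =>
    ⟨_, List.mem_map.2 ⟨a, ha, rfl⟩, rfl⟩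
  refine ⟨P, ⟨by simp [hP], fun z hz => ?_, cov, fun b hb' => ?_⟩, ?_, ?_⟩
  · obtain ⟨k1, k2⟩ := memP z hz
    exact ⟨k1, f z.1, f1 _ k1, f2 _ k1, f3 _ k1, k2⟩
  · obtain ⟨v, v1, v2, v3⟩ := exists_word (P := P) (α := Prod.fst) (fun a ha => by
      obtain ⟨z, hz, rfl⟩ := cov a ha
      exact ⟨[(z, true)], over_single.2 hz, by simp, by simp [wd]⟩) (ψ1 _ (GenS.gen hb'))
    exact short_rep (P := P) (fun s => mu (flat Prod.snd s))
      (fun s r _ _ _ _ => by rw [flat_append, mu_append]) (fun s _ _ => mk_mem_PS _) b _ v le_rfl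
      v1 v2 (by rw [← key v v1 v2, v3, ψ2 _ (GenS.gen hb')])
  · intro v w v1 w1 v2 w2 e
    rw [← key v v1 v2, ← key w w1 w2, e]
  · intro v w v1 w1 v2 w2 e
    exact hb.injOn (ma v v1 v2) (ma w w1 w2) (by rw [key v v1 v2, key w w1 w2, e])

end Pool.Agent.P.MP_ab6a8b_al
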