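import Mathlib
import Pool.Agent.P.MP_ab6a8b_al.Decide
import Pool.Agent.P.MP_ab6a8b_al.IsoRed

/-! The decision procedure for isomorphism. -/

set_option autoImplicit false

namespace Pool.Agent.P.MP_ab6a8b_al

open FreeGroup hiding map_mul map_one map_inv
open Pointwise Pool.Agent.Lib.PrimrecProp

/-- One side of a pair of words. -/
def sel (s : Bool) (z : W × W) : W := cond s z.1 z.2

/-- Substitution of a letter, on one side. -/
def wdb (s : Bool) (c : (W × W) × Bool) : W := cond c.2 (sel s c.1) (invRev (sel s c.1))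

/-- Substitution, on one side. -/
def fl (s : Bool) (v : List ((W × W) × Bool)) : W := v.flatMap fun c => wdb s c

theorem wdb_eq (s : Bool) (c : (W × W) × Bool) : wdb s c = wd (sel s) c := rfl

theorem fl_eq (s : Bool) (v : List ((W × W) × Bool)) : fl s v = flat (sel s) v := rfl

/-- Words of bounded length over a table. -/
def wds {γ : Type} (P : List γ) (n : ℕ) : List (List (γ × Bool)) :=
  wordsLe (pairs P [true, false]) n

theorem mem_pairs_bool {γ : Type} {P : List γ} {c : γ × Bool} :
    c ∈ pairs P [true, false] ↔ c.1 ∈ P := by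
  obtain ⟨a, b⟩ := c
  cases b <;> simp

theorem mem_wds {γ : Type} {P : List γ} {n : ℕ} {v : List (γ × Bool)} :
    v ∈ wds P n ↔ Over P v ∧ v.length ≤ n := by
  simp only [wds, mem_wordsLe, mem_pairs_bool, Over, and_comm]

/-- Length of the reduced word. -/
def nrm (w : W) : ℕ := (red w).length

theorem nrm_eq (w : W) : nrm w = norm (FreeGroup.mk w) := by
  rw [nrm, red_eq]; rfl

/-- Inclusion of trees. -/
def subb (a b : W) : Bool := (List.range (a.length + 1)).all fun j => inPS b (a.take j)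

theorem subb_iff {a b : W} : subb a b = true ↔ PS a ⊆ PS b := by
  simp only [subb, List.all_eq_true, List.mem_range, Nat.lt_succ_iff, inPS_iff]
  constructor
  · intro h g hg
    obtain ⟨j, hj, rfl⟩ := mem_PS'.1 hg
    exact h j hj
  · intro h j _
    exact h ⟨j, rfl⟩

/-- The word problem of the free inverse monoid. -/
def eqmu (a b : W) : Bool := subb a b && subb b a && eqg a b

theorem eqmu_iff {a b : W} : eqmu a b = true ↔ mu a = mu b := by
  simp only [eqmu, Bool.and_eq_true, subb_iff, eqg_iff, mu, Prod.mk.injEq,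
    Set.Subset.antisymm_iff]

/-- The tree lies in a ball. -/
def insb (R : ℕ) (w : W) : Bool :=
  (List.range (w.length + 1)).all fun j => leb (nrm (w.take j)) R

theorem insb_iff {R : ℕ} {w : W} : insb R w = true ↔ ∀ g ∈ PS w, norm g ≤ R := by
  simp only [insb, List.all_eq_true, List.mem_range, Nat.lt_succ_iff, leb_iff, nrm_eq]
  constructor
  · intro h g hg
    obtain ⟨j, hj, rfl⟩ := mem_PS'.1 hg
    exact h j hj
  · intro h j _
    exact h _ ⟨j, rfl⟩

theorem imp_iff {a b : Bool} : (!a || b) = true ↔ (a = true → b = true) := by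
  cases a <;> simp

/-- Test of `C0`. -/
def c0b (P : List (W × W)) (s : Bool) (K : ℕ) : Bool := P.all fun z => leb (sel s z).length K

/-- Test of `C1`. -/
def c1b (P : List (W × W)) (s : Bool) (K m : ℕ) : Bool :=
  (wds P (2 * m)).all fun u => !(leb (nrm (fl s u)) (2 * K)) ||
    (wds P m).any fun u' => eqg (fl s u') (fl s u) && eqg (fl (!s) u') (fl (!s) u)

/-- Test of `C2`. -/
def c2b (P : List (W × W)) (s : Bool) (m : ℕ) : Bool :=
  (wds P m).all fun u => !(eqg (fl s u) []) || eqg (fl (!s) u) []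

/-- Test of `C3`. -/
def c3b (P : List (W × W)) (s : Bool) (R M : ℕ) : Bool :=
  (wds P (M + 1)).all fun v => !(insb R (fl s v)) ||
    (wds P M).any fun v' => eqmu (fl s v') (fl s v) && eqmu (fl (!s) v') (fl (!s) v)

/-- Test of `C4`. -/
def c4b (P : List (W × W)) (s : Bool) (M : ℕ) : Bool :=
  (pairs P [true, false]).all fun c => (wds P M).all fun v =>
    !(subb (wdb s c) (fl s v)) || subb (wdb (!s) c) (fl (!s) v)

/-- Test of `Cert`. -/
def certb (P : List (W × W)) (s : Bool) (K m M : ℕ) : Bool :=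
  c0b P s K && (c1b P s K m && (c2b P s m && (c3b P s ((4 * m + 4) * K) M && c4b P s M)))

theorem certb_iff {P : List (W × W)} {s : Bool} {K m M : ℕ} :
    certb P s K m M = true ↔ Cert P (sel s) (sel (!s)) K m M := by
  simp only [certb, Bool.and_eq_true, Cert]
  refine and_congr ?_ (and_congr ?_ (and_congr ?_ (and_congr ?_ ?_)))
  · simp only [c0b, C0, List.all_eq_true, leb_iff]
  · simp only [c1b, C1, List.all_eq_true, imp_iff, List.any_eq_true, Bool.and_eq_true, mem_wds,
      leb_iff, nrm_eq, eqg_iff, fl_eq, gw, and_imp, and_assoc]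
  · simp only [c2b, C2, List.all_eq_true, imp_iff, mem_wds, eqg_iff, fl_eq, gw, and_imp,
      FreeGroup.one_eq_mk]
  · simp only [c3b, C3, List.all_eq_true, imp_iff, List.any_eq_true, Bool.and_eq_true, mem_wds,
      insb_iff, eqmu_iff, fl_eq, Ins, and_imp, and_assoc]
  · simp only [c4b, C4, List.all_eq_true, imp_iff, mem_wds, mem_pairs_bool, subb_iff, fl_eq,
      wdb_eq, and_imp]

/-- The bound for the images of the generators. -/
def bN (A : List W) : ℕ := nb (A.flatMap fun a => a).length

theorem le_bN {A : List W} {a : W} (h : a ∈ A) : nb a.length ≤ bN A := by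
  refine nb_mono ?_
  obtain ⟨s, r, rfl⟩ := List.append_of_mem h
  simp only [List.flatMap_append, List.flatMap_cons, List.length_append]
  omega

/-- The candidate tables. -/
def cands (A B : List W) : List (List (W × W)) :=
  wordsLe (pairs A (((wds B (bN A)).filter fun v => leb 1 v.length).map
    fun v => v.flatMap fun c => wr c)) A.length

/-- The table covers the generators on both sides. -/
def okb (A B : List W) (P : List (W × W)) : Bool :=
  (A.all fun a => P.any fun z => eqb z.1 a) && B.all fun b =>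
    (wds P (nb b.length)).any fun v => leb 1 v.length && eqmu (fl false v) b

theorem not_eqb_iff {γ : Type} [DecidableEq γ] {x y : γ} : (!(eqb x y)) = true ↔ x ≠ y := by
  simp [eqb]

theorem leb_one_iff {γ : Type} {v : List γ} : leb 1 v.length = true ↔ v ≠ [] := by
  cases v <;> simp [leb]

theorem table_iff {A B : List W} {P : List (W × W)} :
    Table A B (bN A) P ↔ P ∈ cands A B ∧ okb A B P = true := by
  simp only [Table, cands, okb, mem_wordsLe, mem_pairs, List.mem_map, List.mem_filter, mem_wds,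
    Bool.and_eq_true, List.all_eq_true, List.any_eq_true, eqb_iff, leb_one_iff, eqmu_iff, fl_eq,
    and_assoc]
  refine and_congr Iff.rfl (and_congr ?_ (and_congr Iff.rfl ?_))
  · refine forall₂_congr fun z _ => and_congr Iff.rfl (exists_congr fun v => ?_)
    exact ⟨fun ⟨a, b, c, d⟩ => ⟨a, c, b, d.symm⟩, fun ⟨a, b, c, d⟩ => ⟨a, c, b, d.symm⟩⟩
  · refine forall₂_congr fun b _ => exists_congr fun v => ?_
    exact ⟨fun ⟨a, b, c, d⟩ => ⟨a, c, b, d⟩, fun ⟨a, b, c, d⟩ => ⟨a, c, b, d⟩⟩

/-- All words of the input are nonempty. -/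
def neb (A B : List W) : Bool := (A.all fun w => !(eqb w [])) && B.all fun w => !(eqb w [])

theorem neb_iff {A B : List W} : neb A B = true ↔ (∀ w ∈ A, w ≠ []) ∧ ∀ w ∈ B, w ≠ [] := by
  simp only [neb, Bool.and_eq_true, List.all_eq_true, not_eqb_iff]

/-- Search for a proof of isomorphism. -/
def posb (A B : List W) (n : ℕ) : Bool :=
  neb A B && (cands A B).any fun P => okb A B P && (List.range n).any fun K =>
    (List.range n).any fun m => (List.range n).any fun M =>
      leb 1 m && (certb P true K m M && certb P false K m M)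

/-- Search for a refutation. -/
def negb (A B : List W) (n : ℕ) : Bool :=
  !(neb A B) || (cands A B).all fun P => !(okb A B P) || (wds P n).any fun v =>
    (wds P n).any fun v' => leb 1 v.length && (leb 1 v'.length &&
      !(eqb (eqmu (fl true v) (fl true v')) (eqmu (fl false v) (fl false v'))))

/-- The decided property. -/
def IsoIn (A B : List W) : Prop := (∀ w ∈ A, w ≠ []) ∧ (∀ w ∈ B, w ≠ []) ∧ IsoGen A B

theorem isoGen_iff {A B : List W} : IsoGen A B ↔ ∃ P, Table A B (bN A) P ∧
    KerLe P Prod.fst Prod.snd ∧ KerLe P Prod.snd Prod.fst :=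
  ⟨table_of_iso fun _ h => le_bN h, fun ⟨_, h1, h2, h3⟩ => iso_of_table h1 h2 h3⟩

theorem table_ne {A B : List W} {N : ℕ} {P : List (W × W)} (ha : ∀ w ∈ A, w ≠ [])
    (hb : ∀ w ∈ B, w ≠ []) (h : Table A B N P) :
    (∀ z ∈ P, Prod.fst z ≠ []) ∧ ∀ z ∈ P, Prod.snd z ≠ [] := by
  refine ⟨fun z hz => ha _ (h.2.1 z hz).1, fun z hz => ?_⟩
  obtain ⟨v, v1, v2, -, v3⟩ := (h.2.1 z hz).2
  obtain ⟨c, r, rfl⟩ := List.exists_cons_of_ne_nil v2
  rw [v3, flat_cons]
  exact List.append_ne_nil_of_left_ne_nil (wd_ne_nil (α := id) hb (v1 c (by simp))) _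

theorem posb_iff {A B : List W} : IsoIn A B ↔ ∃ n, posb A B n = true := by
  simp only [IsoIn, isoGen_iff, posb, Bool.and_eq_true, neb_iff, List.any_eq_true,
    List.mem_range, leb_iff, certb_iff]
  constructor
  · rintro ⟨ha, hb, P, ht, hk⟩
    obtain ⟨K, m, M, h1, h2, h3⟩ :=
      (kerEq_iff_cert (table_ne ha hb ht).1 (table_ne ha hb ht).2).1 hk
    obtain ⟨t1, t2⟩ := table_iff.1 ht
    exact ⟨K + m + M + 1, ⟨ha, hb⟩, P, t1, t2, K, by omega, m, by omega, M, by omega, h1, h2, h3⟩
  · rintro ⟨n, ⟨ha, hb⟩, P, t1, t2, K, -, m, -, M, -, h1, h2, h3⟩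
    have ht := table_iff.2 ⟨t1, t2⟩
    exact ⟨ha, hb, P, ht,
      (kerEq_iff_cert (table_ne ha hb ht).1 (table_ne ha hb ht).2).2 ⟨K, m, M, h1, h2, h3⟩⟩

theorem bool_ne_iff {a b : Bool} : a ≠ b ↔ ¬ (a = true ↔ b = true) := by
  cases a <;> cases b <;> simp

theorem list_bound {γ : Type} (L : List γ) (p : γ → ℕ → Prop)
    (hm : ∀ x n n', n ≤ n' → p x n → p x n') (h : ∀ x ∈ L, ∃ n, p x n) :
    ∃ n, ∀ x ∈ L, p x n := by
  induction L with
  | nil => exact ⟨0, by simp⟩
  | cons y L ih =>
    obtain ⟨n, hn⟩ := ih fun x hx => h x (by simp [hx])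
    obtain ⟨k, hk⟩ := h y (by simp)
    refine ⟨n + k, fun x hx => ?_⟩
    rcases List.mem_cons.1 hx with rfl | hx
    · exact hm _ _ _ (by omega) hk
    · exact hm _ _ _ (by omega) (hn x hx)

theorem negb_iff {A B : List W} : ¬ IsoIn A B ↔ ∃ n, negb A B n = true := by
  simp only [IsoIn, isoGen_iff, negb, imp_iff, Bool.and_eq_true, neb_iff, List.any_eq_true,
    List.all_eq_true, not_eqb_iff, leb_one_iff, mem_wds, bool_ne_iff, eqmu_iff, fl_eq]
  constructor
  · intro h
    by_cases hne : (∀ w ∈ A, w ≠ []) ∧ ∀ w ∈ B, w ≠ []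
    swap
    · exact ⟨0, fun h' => absurd h' hne⟩
    obtain ⟨n, hn⟩ := list_bound (cands A B) (fun P n => okb A B P = true →
        ∃ v, (Over P v ∧ v.length ≤ n) ∧ ∃ v', (Over P v' ∧ v'.length ≤ n) ∧ v ≠ [] ∧ v' ≠ [] ∧
          ¬ (mu (flat (sel true) v) = mu (flat (sel true) v') ↔
            mu (flat (sel false) v) = mu (flat (sel false) v')))
      (fun P n n' hn hp ho => by
        obtain ⟨v, ⟨a, b⟩, v', ⟨c, d⟩, e⟩ := hp ho
        exact ⟨v, ⟨a, b.trans hn⟩, v', ⟨c, d.trans hn⟩, e⟩)
      (fun P hP => by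
        by_contra hc
        push Not at hc
        have k : ∀ v v', Over P v → Over P v' → v ≠ [] → v' ≠ [] →
            (mu (flat (sel true) v) = mu (flat (sel true) v') ↔
              mu (flat (sel false) v) = mu (flat (sel false) v')) := fun v v' a b c d =>
          (hc (v.length + v'.length)).2 v ⟨a, by omega⟩ v' ⟨b, by omega⟩ c d
        exact h ⟨hne.1, hne.2, P, table_iff.2 ⟨hP, (hc 0).1⟩,
          fun v v' a b c d => (k v v' a b c d).1, fun v v' a b c d => (k v v' a b c d).2⟩)
    exact ⟨n, fun _ => hn⟩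
  · rintro ⟨n, hn⟩ ⟨ha, hb, P, ht, h1, h2⟩
    obtain ⟨t1, t2⟩ := table_iff.1 ht
    obtain ⟨v, ⟨a, -⟩, v', ⟨b, -⟩, c, d, e⟩ := hn ⟨ha, hb⟩ P t1 t2
    exact e ⟨h1 v v' a b c d, h2 v v' a b c d⟩

section Prim

variable {α : Type} [Primcodable α]

@[fun_prop] theorem p_sel {f : α → Bool} {g : α → W × W} (hf : Primrec f) (hg : Primrec g) :
    Primrec (fun a => sel (f a) (g a)) := by
  unfold sel; fun_prop

@[fun_prop] theorem p_wdb {f : α → Bool} {g : α → (W × W) × Bool} (hf : Primrec f)
    (hg : Primrec g) : Primrec (fun a => wdb (f a) (g a)) := by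
  unfold wdb; fun_prop

@[fun_prop] theorem p_fl {f : α → Bool} {g : α → List ((W × W) × Bool)} (hf : Primrec f)
    (hg : Primrec g) : Primrec (fun a => fl (f a) (g a)) := by
  unfold fl; fun_prop

@[fun_prop] theorem p_wds {γ : Type} [Primcodable γ] {f : α → List γ} {g : α → ℕ}
    (hf : Primrec f) (hg : Primrec g) : Primrec (fun a => wds (f a) (g a)) := by
  unfold wds; fun_prop

@[fun_prop] theorem p_nrm {f : α → W} (hf : Primrec f) : Primrec (fun a => nrm (f a)) := by
  unfold nrm; fun_prop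

@[fun_prop] theorem p_subb {f g : α → W} (hf : Primrec f) (hg : Primrec g) :
    Primrec (fun a => subb (f a) (g a)) := by
  unfold subb; fun_prop

@[fun_prop] theorem p_eqmu {f g : α → W} (hf : Primrec f) (hg : Primrec g) :
    Primrec (fun a => eqmu (f a) (g a)) := by
  unfold eqmu; fun_prop

@[fun_prop] theorem p_insb {f : α → ℕ} {g : α → W} (hf : Primrec f) (hg : Primrec g) :
    Primrec (fun a => insb (f a) (g a)) := by
  unfold insb; fun_prop

@[fun_prop] theorem p_c0b {f : α → List (W × W)} {s : α → Bool} {g : α → ℕ} (hf : Primrec f)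
    (hs : Primrec s) (hg : Primrec g) : Primrec (fun a => c0b (f a) (s a) (g a)) := by
  unfold c0b; fun_prop

@[fun_prop] theorem p_c1b {f : α → List (W × W)} {s : α → Bool} {g h : α → ℕ} (hf : Primrec f)
    (hs : Primrec s) (hg : Primrec g) (hh : Primrec h) :
    Primrec (fun a => c1b (f a) (s a) (g a) (h a)) := by
  unfold c1b; fun_prop

@[fun_prop] theorem p_c2b {f : α → List (W × W)} {s : α → Bool} {g : α → ℕ} (hf : Primrec f)
    (hs : Primrec s) (hg : Primrec g) : Primrec (fun a => c2b (f a) (s a) (g a)) := by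
  unfold c2b; fun_prop

@[fun_prop] theorem p_c3b {f : α → List (W × W)} {s : α → Bool} {g h : α → ℕ} (hf : Primrec f)
    (hs : Primrec s) (hg : Primrec g) (hh : Primrec h) :
    Primrec (fun a => c3b (f a) (s a) (g a) (h a)) := by
  unfold c3b; fun_prop

@[fun_prop] theorem p_c4b {f : α → List (W × W)} {s : α → Bool} {g : α → ℕ} (hf : Primrec f)
    (hs : Primrec s) (hg : Primrec g) : Primrec (fun a => c4b (f a) (s a) (g a)) := by
  unfold c4b; fun_prop

@[fun_prop] theorem p_certb {f : α → List (W × W)} {s : α → Bool} {g h k : α → ℕ}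
    (hf : Primrec f) (hs : Primrec s) (hg : Primrec g) (hh : Primrec h) (hk : Primrec k) :
    Primrec (fun a => certb (f a) (s a) (g a) (h a) (k a)) := by
  unfold certb; fun_prop

@[fun_prop] theorem p_nb {f : α → ℕ} (hf : Primrec f) : Primrec (fun a => nb (f a)) := by
  have h : Primrec₂ (fun a b : ℕ => a ^ b) := Primrec₂.unpaired'.1 Nat.Primrec.pow
  exact p_mul (h.comp (Primrec.const 2) (by fun_prop)) (by fun_prop)

@[fun_prop] theorem p_bN {f : α → List W} (hf : Primrec f) : Primrec (fun a => bN (f a)) := by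
  unfold bN; fun_prop

@[fun_prop] theorem p_cands {f g : α → List W} (hf : Primrec f) (hg : Primrec g) :
    Primrec (fun a => cands (f a) (g a)) := by
  unfold cands; fun_prop

@[fun_prop] theorem p_okb {f g : α → List W} {h : α → List (W × W)} (hf : Primrec f)
    (hg : Primrec g) (hh : Primrec h) : Primrec (fun a => okb (f a) (g a) (h a)) := by
  unfold okb; fun_prop

@[fun_prop] theorem p_neb {f g : α → List W} (hf : Primrec f) (hg : Primrec g) :
    Primrec (fun a => neb (f a) (g a)) := by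
  unfold neb; fun_prop

theorem p_posb : Primrec (fun x : (List W × List W) × ℕ => posb x.1.1 x.1.2 x.2) := by
  unfold posb; fun_prop

theorem p_negb : Primrec (fun x : (List W × List W) × ℕ => negb x.1.1 x.1.2 x.2) := by
  unfold negb; fun_prop

theorem re_ex {p : α → Prop} {f : α → ℕ → Bool} (hf : Primrec (fun x : α × ℕ => f x.1 x.2))
    (h : ∀ a, p a ↔ ∃ n, f a n = true) : REPred p := by
  have h1 : Partrec₂ (fun a n => (f a n : Part Bool)) := Computable₂.partrec₂ hf.to_comp
  refine (Partrec.rfind h1).dom_re.of_eq fun a => ?_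
  rw [h a]
  refine Nat.rfind_dom.trans ⟨?_, ?_⟩
  · rintro ⟨n, hn, -⟩
    exact ⟨n, (Part.mem_some_iff.1 hn).symm⟩
  · rintro ⟨n, hn⟩
    exact ⟨n, Part.mem_some_iff.2 hn.symm, fun _ => trivial⟩

end Prim

theorem iso_main : ComputablePred (fun x : List W × List W => IsoIn x.1 x.2) :=
  ComputablePred.computable_iff_re_compl_re'.2
    ⟨re_ex (f := fun x n => posb x.1 x.2 n) p_posb fun _ => posb_iff,
      re_ex (f := fun x n => negb x.1 x.2 n) p_negb fun _ => negb_iff⟩

end Pool.Agent.P.MP_ab6a8b_al
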